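import Pool.Agent.Hhelper64.T12.CntUp
import Pool.Agent.Hhelper14.SAW.Final

/-!
Growth of the number of walks of the lattice `(3,12^2)`.
-/

namespace Pool.Agent.Hhelper64.T12

open Pool.Agent.Hhelper14.SAW Finset Filter Topology

lemma exists_x : ∃ x : ℝ, 0 < x ∧ x < 1 ∧ mu * x ^ 2 + mu * x ^ 3 = 1 := by
  have hmu := mu_bounds
  have hc : ContinuousOn (fun x : ℝ => mu * x ^ 2 + mu * x ^ 3) (Set.Icc 0 1) := by fun_prop
  have h := intermediate_value_Icc (by norm_num : (0 : ℝ) ≤ 1) hc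
  obtain ⟨x, hx, hx1⟩ := h (show (1 : ℝ) ∈ Set.Icc _ _ by constructor <;> norm_num; linarith)
  simp only at hx1
  refine ⟨x, lt_of_le_of_ne hx.1 ?_, lt_of_le_of_ne hx.2 ?_, hx1⟩
  · rintro rfl; norm_num at hx1
  · rintro rfl; norm_num at hx1; linarith

/-- The critical fugacity of the lattice `(3,12^2)`. -/
noncomputable def xx : ℝ := exists_x.choose

lemma xx_pos : 0 < xx := exists_x.choose_spec.1
lemma xx_lt : xx < 1 := exists_x.choose_spec.2.1
lemma xx_eq : mu * xx ^ 2 + mu * xx ^ 3 = 1 := exists_x.choose_spec.2.2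

noncomputable def pp (k n : ℕ) : ℝ := (cnt k n : ℝ) * mu ^ k * xx ^ n

lemma pp_nonneg (k n : ℕ) : 0 ≤ pp k n := by
  have := mu_pos; have := xx_pos
  unfold pp; positivity

lemma pp_zero (n : ℕ) : pp 0 n = if n = 0 then 1 else 0 := by
  unfold pp
  rw [cnt_zero]
  split_ifs with h
  · subst h; simp
  · simp

lemma pp_succ (k n : ℕ) : pp (k + 1) n =
    (if 2 ≤ n then mu * xx ^ 2 * pp k (n - 2) else 0) + (if 3 ≤ n then mu * xx ^ 3 * pp k (n - 3) else 0) := by
  unfold pp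
  rw [cnt_succ]
  by_cases h2 : 2 ≤ n
  · by_cases h3 : 3 ≤ n
    · rw [if_pos h2, if_pos h3, if_pos h2, if_pos h3]
      have e2 : xx ^ n = xx ^ 2 * xx ^ (n - 2) := by rw [← pow_add]; congr 1; omega
      have e3 : xx ^ n = xx ^ 3 * xx ^ (n - 3) := by rw [← pow_add]; congr 1; omega
      push_cast
      rw [add_mul, add_mul]
      congr 1
      · rw [e2, pow_succ]; ring
      · rw [e3, pow_succ]; ring
    · rw [if_pos h2, if_neg h3, if_pos h2, if_neg h3]
      have e2 : xx ^ n = xx ^ 2 * xx ^ (n - 2) := by rw [← pow_add]; congr 1; omega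
      rw [e2, pow_succ]; push_cast; ring
  · rw [if_neg h2, if_neg (by omega), if_neg h2, if_neg (by omega)]
    simp

noncomputable def uu (n : ℕ) : ℝ := ∑ k ∈ range (n + 1), pp k n

lemma pp_eq_zero {k n : ℕ} (h : n < 2 * k) : pp k n = 0 := by
  unfold pp; rw [cnt_eq_zero k n (Or.inl h)]; simp

lemma uu_eq {n N : ℕ} (h : n < N) : ∑ k ∈ range N, pp k n = uu n := by
  unfold uu
  refine (sum_subset (range_subset_range.2 (by omega)) fun k _ hk2 => ?_).symm
  rw [mem_range] at hk2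
  exact pp_eq_zero (by omega)

lemma uu_zero : uu 0 = 1 := by
  unfold uu; rw [sum_range_one, pp_zero, if_pos rfl]

lemma uu_succ (n : ℕ) : uu (n + 1) = (if 2 ≤ n + 1 then mu * xx ^ 2 * uu (n + 1 - 2) else 0) +
    (if 3 ≤ n + 1 then mu * xx ^ 3 * uu (n + 1 - 3) else 0) := by
  rw [uu, sum_range_succ', pp_zero, if_neg (by omega), add_zero]
  simp_rw [pp_succ]
  rw [sum_add_distrib]
  congr 1
  · split_ifs with h
    · rw [← mul_sum, uu_eq (by omega)]
    · simp
  · split_ifs with h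
    · rw [← mul_sum, uu_eq (by omega)]
    · simp

lemma uu_one : uu 1 = 0 := by
  rw [uu_succ]; norm_num

lemma uu_two : uu 2 = mu * xx ^ 2 := by
  rw [uu_succ]; norm_num [uu_zero]

lemma uu_rec (n : ℕ) : uu (n + 3) = mu * xx ^ 2 * uu (n + 1) + mu * xx ^ 3 * uu n := by
  rw [uu_succ, if_pos (by omega), if_pos (by omega)]
  rfl

lemma uu_le : ∀ n, uu n ≤ 1
  | 0 => by rw [uu_zero]
  | 1 => by rw [uu_one]; norm_num
  | 2 => by
    rw [uu_two]
    have := xx_eq
    have h1 := mu_pos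
    have h2 := xx_pos
    have : 0 < mu * xx ^ 3 := by positivity
    linarith
  | n + 3 => by
    rw [uu_rec]
    have h1 := mu_pos
    have h2 := xx_pos
    have h3 := uu_le (n + 1)
    have h4 := uu_le n
    have h5 : 0 < mu * xx ^ 2 := by positivity
    have h6 : 0 < mu * xx ^ 3 := by positivity
    have := xx_eq
    nlinarith

noncomputable def m0 : ℝ := min (min (mu * xx ^ 2) (mu * xx ^ 3)) ((mu * xx ^ 2) ^ 2)

lemma m0_pos : 0 < m0 := by
  have h1 := mu_pos
  have h2 := xx_pos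
  unfold m0
  positivity

lemma le_uu : ∀ n, 2 ≤ n → m0 ≤ uu n
  | 0, h => by omega
  | 1, h => by omega
  | 2, _ => by rw [uu_two]; exact (min_le_left _ _).trans (min_le_left _ _)
  | 3, _ => by
    rw [uu_rec 0, uu_zero]
    have := uu_one
    rw [show 0 + 1 = 1 from rfl, this, mul_zero, zero_add, mul_one]
    exact (min_le_left _ _).trans (min_le_right _ _)
  | 4, _ => by
    rw [uu_rec 1, uu_one, show 1 + 1 = 2 from rfl, uu_two]
    refine (min_le_right _ _).trans (le_of_eq ?_)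
    ring
  | n + 5, _ => by
    rw [show n + 5 = (n + 2) + 3 from rfl, uu_rec]
    have h3 := le_uu (n + 2 + 1) (by omega)
    have h4 := le_uu (n + 2) (by omega)
    have h1 := mu_pos
    have h2 := xx_pos
    have h5 : 0 < mu * xx ^ 2 := by positivity
    have h6 : 0 < mu * xx ^ 3 := by positivity
    have e1 := mul_le_mul_of_nonneg_left h3 h5.le
    have e2 := mul_le_mul_of_nonneg_left h4 h6.le
    have e3 : mu * xx ^ 2 * m0 + mu * xx ^ 3 * m0 = m0 := by rw [← add_mul, xx_eq, one_mul]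
    linarith

lemma an_low : ∃ c : ℝ, 0 < c ∧ ∀ n : ℕ, 1 ≤ n → c * (n : ℝ) ^ (1 / 10000 : ℝ) * mu ^ n ≤ an n :=
  low_of_chain Pool.Agent.Hhelper3.SAW.mass_chain

lemma bn_one : 1 ≤ bn 1 := by
  have h : (SF LR d0 1).Nonempty := by
    have : GW LR d0 1 [(o', o), (o, o')] := by
      refine ⟨rfl, by decide, ?_, rfl⟩
      exact List.IsChain.cons_cons ⟨adj_o.symm, adj_o, Or.inl ⟨rfl, rfl⟩⟩ (List.isChain_singleton _)
    obtain ⟨w, hw⟩ := toL_surj (X := Dt) (n := 1) (P := [(o', o), (o, o')]) rfl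
    rw [← hw] at this
    exact ⟨w, toL_mem.1 this⟩
  exact (Set.ncard_pos (SF_finite LR_finite d0 1)).2 h

theorem bn_low : ∃ c : ℝ, 0 < c ∧ ∀ n : ℕ, 1 ≤ n →
    c * (n : ℝ) ^ (1 / 10000 : ℝ) * (1 / xx) ^ n ≤ bn n := by
  obtain ⟨c, hc, hlow⟩ := an_low
  have hmu := mu_pos
  have hx := xx_pos
  have hm0 := m0_pos
  have h3 : (0 : ℝ) < 3 ^ (1 / 10000 : ℝ) := by positivity
  refine ⟨min xx (2 / 3 * c * (m0 / 3 ^ (1 / 10000 : ℝ))), by positivity, ?_⟩
  intro n hn
  rcases Nat.lt_or_ge n 2 with h | h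
  · obtain rfl : n = 1 := by omega
    have h1 : (1 : ℝ) ≤ bn 1 := by exact_mod_cast bn_one
    refine le_trans ?_ h1
    rw [Nat.cast_one, Real.one_rpow, mul_one, pow_one]
    calc min xx (2 / 3 * c * (m0 / 3 ^ (1 / 10000 : ℝ))) * (1 / xx) ≤ xx * (1 / xx) :=
          mul_le_mul_of_nonneg_right (min_le_left _ _) (by positivity)
      _ = 1 := by field_simp
  · have hn0 : (0 : ℝ) < n := by exact_mod_cast hn
    have h1 : (2 : ℝ) * ∑ k ∈ range (n + 1), (an k : ℝ) * cnt k n ≤ 3 * bn n := by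
      exact_mod_cast lower n
    have h2 : c * ((n : ℝ) / 3) ^ (1 / 10000 : ℝ) * (1 / xx) ^ n * uu n ≤
        ∑ k ∈ range (n + 1), (an k : ℝ) * cnt k n := by
      unfold uu
      rw [mul_sum]
      refine sum_le_sum fun k _ => ?_
      by_cases hk : 3 * k < n
      · have : cnt k n = 0 := cnt_eq_zero k n (Or.inr hk)
        unfold pp; rw [this]; simp
      · have hk1 : 1 ≤ k := by omega
        have hk3 : (n : ℝ) / 3 ≤ k := by
          rw [div_le_iff₀ (by norm_num)]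
          have : n ≤ k * 3 := by omega
          exact_mod_cast this
        have e1 := hlow k hk1
        have e2 : ((n : ℝ) / 3) ^ (1 / 10000 : ℝ) ≤ (k : ℝ) ^ (1 / 10000 : ℝ) :=
          Real.rpow_le_rpow (by positivity) hk3 (by norm_num)
        have e3 : c * ((n : ℝ) / 3) ^ (1 / 10000 : ℝ) * mu ^ k ≤ an k := by
          refine le_trans ?_ e1
          gcongr
        have e4 : (1 / xx) ^ n * xx ^ n = 1 := by
          rw [← mul_pow, one_div_mul_cancel hx.ne', one_pow]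
        calc c * ((n : ℝ) / 3) ^ (1 / 10000 : ℝ) * (1 / xx) ^ n * pp k n
            = (c * ((n : ℝ) / 3) ^ (1 / 10000 : ℝ) * mu ^ k) * cnt k n * ((1 / xx) ^ n * xx ^ n) := by
              unfold pp; ring
          _ = (c * ((n : ℝ) / 3) ^ (1 / 10000 : ℝ) * mu ^ k) * cnt k n := by rw [e4, mul_one]
          _ ≤ an k * cnt k n := mul_le_mul_of_nonneg_right e3 (by positivity)
    have h4 := le_uu n h
    have h5 : c * ((n : ℝ) / 3) ^ (1 / 10000 : ℝ) * (1 / xx) ^ n * m0 ≤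
        c * ((n : ℝ) / 3) ^ (1 / 10000 : ℝ) * (1 / xx) ^ n * uu n :=
      mul_le_mul_of_nonneg_left h4 (by positivity)
    have h6 : ((n : ℝ) / 3) ^ (1 / 10000 : ℝ) = (n : ℝ) ^ (1 / 10000 : ℝ) / 3 ^ (1 / 10000 : ℝ) :=
      Real.div_rpow (by positivity) (by norm_num) _
    rw [h6] at h2 h5
    have h7 : min xx (2 / 3 * c * (m0 / 3 ^ (1 / 10000 : ℝ))) * (n : ℝ) ^ (1 / 10000 : ℝ) * (1 / xx) ^ n ≤
        2 / 3 * c * (m0 / 3 ^ (1 / 10000 : ℝ)) * (n : ℝ) ^ (1 / 10000 : ℝ) * (1 / xx) ^ n := by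
      gcongr
      exact min_le_right _ _
    refine h7.trans ?_
    have h8 : 2 / 3 * c * (m0 / 3 ^ (1 / 10000 : ℝ)) * (n : ℝ) ^ (1 / 10000 : ℝ) * (1 / xx) ^ n =
        2 / 3 * (c * ((n : ℝ) ^ (1 / 10000 : ℝ) / 3 ^ (1 / 10000 : ℝ)) * (1 / xx) ^ n * m0) := by ring
    rw [h8]
    linarith

lemma nw_le {C : ℝ} (hC : 0 ≤ C) (h : ∀ n : ℕ, (an n : ℝ) ≤ mu ^ n * Real.exp (C * Real.sqrt n)) (k : ℕ) :
    (nw k : ℝ) ≤ 6 * (mu ^ k * Real.exp (C * Real.sqrt k)) := by
  cases k with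
  | zero => simp [nw]
  | succ k =>
    unfold nw
    push_cast
    have h1 := h k
    have hmu := mu_bounds
    have hmu' := mu_pos
    have h2 : mu ^ k ≤ mu ^ (k + 1) := pow_le_pow_right₀ (by linarith) (Nat.le_succ k)
    have h3 : Real.exp (C * Real.sqrt k) ≤ Real.exp (C * Real.sqrt (k + 1)) := by
      apply Real.exp_le_exp.2
      exact mul_le_mul_of_nonneg_left (Real.sqrt_le_sqrt (by linarith)) hC
    have h4 : mu ^ k * Real.exp (C * Real.sqrt k) ≤ mu ^ (k + 1) * Real.exp (C * Real.sqrt (k + 1)) :=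
      mul_le_mul h2 h3 (Real.exp_pos _).le (by positivity)
    linarith

lemma NC_up {C : ℝ} (hC : 0 ≤ C) (h : ∀ n : ℕ, (an n : ℝ) ≤ mu ^ n * Real.exp (C * Real.sqrt n)) (n : ℕ) :
    ((NC n).ncard : ℝ) ≤ 108 * ((1 / xx) ^ n * Real.exp (C * Real.sqrt n)) := by
  have hx := xx_pos
  have hx1 := xx_lt
  have h1 : ((NC n).ncard : ℝ) ≤ ∑ j ∈ range 3, if j ≤ n then
      6 * ∑ k ∈ range (n + 1), (nw k : ℝ) * cnt k (n - j) else 0 := by
    have := NC_card n
    have h2 : (((NC n).ncard : ℕ) : ℝ) ≤ ((∑ j ∈ range 3, if j ≤ n then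
      6 * ∑ k ∈ range (n + 1), nw k * cnt k (n - j) else 0 : ℕ) : ℝ) := by exact_mod_cast this
    refine h2.trans (le_of_eq ?_)
    push_cast
    rfl
  refine h1.trans ?_
  have h2 : ∀ j ∈ range 3, (if j ≤ n then 6 * ∑ k ∈ range (n + 1), (nw k : ℝ) * cnt k (n - j) else 0) ≤
      36 * ((1 / xx) ^ n * Real.exp (C * Real.sqrt n)) := by
    intro j _
    split_ifs with hj
    · have h3 : ∑ k ∈ range (n + 1), (nw k : ℝ) * cnt k (n - j) ≤
          6 * (Real.exp (C * Real.sqrt n) * (1 / xx) ^ (n - j)) * ∑ k ∈ range (n + 1), pp k (n - j) := by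
        rw [mul_sum]
        refine sum_le_sum fun k hk => ?_
        have hkn : (k : ℝ) ≤ n := by
          rw [mem_range] at hk
          exact_mod_cast (by omega : k ≤ n)
        have e1 := nw_le hC h k
        have e2 : Real.exp (C * Real.sqrt k) ≤ Real.exp (C * Real.sqrt n) :=
          Real.exp_le_exp.2 (mul_le_mul_of_nonneg_left (Real.sqrt_le_sqrt hkn) hC)
        have e4 : (1 / xx) ^ (n - j) * xx ^ (n - j) = 1 := by
          rw [← mul_pow, one_div_mul_cancel hx.ne', one_pow]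
        have hmu := mu_pos
        have e5 : (nw k : ℝ) ≤ 6 * (mu ^ k * Real.exp (C * Real.sqrt n)) :=
          e1.trans (by gcongr)
        calc (nw k : ℝ) * cnt k (n - j) ≤ 6 * (mu ^ k * Real.exp (C * Real.sqrt n)) * cnt k (n - j) :=
              mul_le_mul_of_nonneg_right e5 (by positivity)
          _ = 6 * (mu ^ k * Real.exp (C * Real.sqrt n)) * cnt k (n - j) * ((1 / xx) ^ (n - j) * xx ^ (n - j)) := by
              rw [e4, mul_one]
          _ = _ := by unfold pp; ring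
      have h4 : ∑ k ∈ range (n + 1), pp k (n - j) ≤ 1 := by
        rw [uu_eq (by omega)]; exact uu_le _
      have h5 : (1 / xx) ^ (n - j) ≤ (1 / xx) ^ n :=
        pow_le_pow_right₀ (by rw [le_div_iff₀ hx]; linarith) (Nat.sub_le n j)
      have h6 : 6 * (Real.exp (C * Real.sqrt n) * (1 / xx) ^ (n - j)) * ∑ k ∈ range (n + 1), pp k (n - j) ≤
          6 * (Real.exp (C * Real.sqrt n) * (1 / xx) ^ n) * 1 := by
        have : 0 ≤ ∑ k ∈ range (n + 1), pp k (n - j) := sum_nonneg fun _ _ => pp_nonneg _ _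
        gcongr
      linarith
    · positivity
  refine (sum_le_sum h2).trans (le_of_eq ?_)
  rw [sum_const, card_range]
  simp only [nsmul_eq_mul]
  push_cast
  ring

lemma bn_zero : bn 0 = 1 := by
  unfold bn
  rw [ncard_SF, Set.ncard_eq_one]
  refine ⟨[d0], ?_⟩
  ext P
  constructor
  · rintro ⟨h1, -, -, h4⟩
    match P, h1 with
    | [y], _ =>
      simp only [List.getLast?_singleton, Option.some.injEq] at h4
      rw [h4]; rfl
  · rintro rfl
    exact ⟨rfl, by simp, by simp, by simp⟩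

theorem bn_up : ∃ C : ℝ, ∀ n : ℕ, (bn n : ℝ) ≤ (1 / xx) ^ n * Real.exp (C * Real.sqrt n) := by
  obtain ⟨C', hC'⟩ := hw_quant
  have hx := xx_pos
  have hx1 := xx_lt
  set C := |C'| with hCd
  have hC : 0 ≤ C := abs_nonneg _
  have h : ∀ n : ℕ, (an n : ℝ) ≤ mu ^ n * Real.exp (C * Real.sqrt n) := by
    intro n
    have hmu := mu_pos
    refine (hC' n).trans (mul_le_mul_of_nonneg_left (Real.exp_le_exp.2 ?_) (by positivity))
    exact mul_le_mul_of_nonneg_right (le_abs_self _) (Real.sqrt_nonneg _)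
  refine ⟨C + 6, fun n => ?_⟩
  cases n with
  | zero => rw [bn_zero]; simp
  | succ n =>
    have h1 : (bn (n + 1) : ℝ) ≤ (NC (n + 1)).ncard + (NC n).ncard := by exact_mod_cast upper_split n
    have h2 := NC_up hC h (n + 1)
    have h3 := NC_up hC h n
    have h4 : (1 / xx) ^ n * Real.exp (C * Real.sqrt n) ≤
        (1 / xx) ^ (n + 1) * Real.exp (C * Real.sqrt ((n + 1 : ℕ) : ℝ)) := by
      have e1 : (1 / xx) ^ n ≤ (1 / xx) ^ (n + 1) :=
        pow_le_pow_right₀ (by rw [le_div_iff₀ hx]; linarith) (Nat.le_succ n)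
      have e2 : Real.exp (C * Real.sqrt n) ≤ Real.exp (C * Real.sqrt ((n + 1 : ℕ) : ℝ)) := by
        apply Real.exp_le_exp.2
        refine mul_le_mul_of_nonneg_left (Real.sqrt_le_sqrt ?_) hC
        push_cast; linarith
      exact mul_le_mul e1 e2 (Real.exp_pos _).le (by positivity)
    have h5 : (216 : ℝ) ≤ Real.exp (6 * Real.sqrt ((n + 1 : ℕ) : ℝ)) := by
      have e1 : (1 : ℝ) ≤ Real.sqrt ((n + 1 : ℕ) : ℝ) := by
        rw [Real.one_le_sqrt]; push_cast; linarith [Nat.cast_nonneg (α := ℝ) n]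
      have e2 : (216 : ℝ) ≤ Real.exp 6 := by
        have e3 : Real.exp 6 = Real.exp 1 ^ 6 := by rw [← Real.exp_nat_mul]; norm_num
        rw [e3]
        have e4 := Real.exp_one_gt_d9
        calc (216 : ℝ) ≤ 2.5 ^ 6 := by norm_num
          _ ≤ Real.exp 1 ^ 6 := pow_le_pow_left₀ (by norm_num) (by linarith) 6
      refine e2.trans (Real.exp_le_exp.2 (by linarith))
    have h6 : (bn (n + 1) : ℝ) ≤ 216 * ((1 / xx) ^ (n + 1) * Real.exp (C * Real.sqrt ((n + 1 : ℕ) : ℝ))) := by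
      linarith
    refine h6.trans ?_
    rw [add_mul, Real.exp_add]
    have h7 : 0 < (1 / xx) ^ (n + 1) * Real.exp (C * Real.sqrt ((n + 1 : ℕ) : ℝ)) := by positivity
    calc 216 * ((1 / xx) ^ (n + 1) * Real.exp (C * Real.sqrt ((n + 1 : ℕ) : ℝ)))
        ≤ Real.exp (6 * Real.sqrt ((n + 1 : ℕ) : ℝ)) * ((1 / xx) ^ (n + 1) * Real.exp (C * Real.sqrt ((n + 1 : ℕ) : ℝ))) :=
          mul_le_mul_of_nonneg_right h5 h7.le
      _ = _ := by ring

end Pool.Agent.Hhelper64.T12
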