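import Pool.Agent.Hhelper64.T12.Dec

/-!
Structure of the walks of the lattice `(3,12^2)` whose first step stays in the first triangle.
-/

namespace Pool.Agent.Hhelper64.T12

open Pool.Agent.Hhelper14.SAW

/-- The steps in the last triangle. -/
def Tl (a e : ℤ × ℤ) (t : List Dt) : Prop :=
  t = [] ∨ (∃ u, Adj a u ∧ u ≠ e ∧ t = [(a, u)]) ∨
  (∃ u u', Adj a u ∧ Adj a u' ∧ u ≠ e ∧ u' ≠ e ∧ u ≠ u' ∧ t = [(a, u'), (a, u)])

lemma GW_isD {x : Dt} (hx : IsD x) : ∀ (n : ℕ) (P : List Dt), GW LR x n P → ∀ d ∈ P, IsD d
  | 0, P, ⟨h1, h2, h3, h4⟩, d, hd => by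
    match P, h1 with
    | [y], _ =>
      simp only [List.getLast?_singleton, Option.some.injEq] at h4
      simp only [List.mem_singleton] at hd
      rw [hd, h4]; exact hx
  | n + 1, P, ⟨h1, h2, h3, h4⟩, d, hd => by
    match P, h1 with
    | z :: y :: r, h1 =>
      rw [List.mem_cons] at hd
      rcases hd with rfl | hd
      · exact (List.isChain_cons_cons.1 h3).1.1
      · refine GW_isD hx n (y :: r) ⟨by simpa using h1, (List.nodup_cons.1 h2).2,
          (List.isChain_cons_cons.1 h3).2, ?_⟩ d hd
        rw [List.getLast?_cons_cons] at h4; exact h4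

theorem struct {w : ℤ × ℤ} (hw : Adj o w) : ∀ (n : ℕ) (P : List Dt), GW LR (o, w) n P →
    ¬ [(w, o), (o, w)] <:+ P →
    ∃ a r cs t, P = t ++ dec w (a :: r) cs ∧ r.length = cs.length ∧ HChain (a :: r) ∧
      (a :: r).getLast? = some o ∧ nbw w (a :: r) ∧ r.Nodup ∧ Tl a (r.headD w) t
  | 0, P, ⟨h1, h2, h3, h4⟩, _ => by
    match P, h1 with
    | [y], _ =>
      simp only [List.getLast?_singleton, Option.some.injEq] at h4
      subst h4
      exact ⟨o, [], [], [], rfl, rfl, List.isChain_singleton _, rfl, trivial, List.nodup_nil, Or.inl rfl⟩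
  | n + 1, P, hP, hsuf => by
    have hD := GW_isD (x := (o, w)) hw (n + 1) P hP
    obtain ⟨h1, h2, h3, h4⟩ := hP
    match P, h1 with
    | d' :: d :: Q, h1 =>
      obtain ⟨hadj, h3'⟩ := List.isChain_cons_cons.1 h3
      obtain ⟨hnd, h2'⟩ := List.nodup_cons.1 h2
      have h4' : (d :: Q).getLast? = some (o, w) := by rw [List.getLast?_cons_cons] at h4; exact h4
      have hsuf' : ¬ [(w, o), (o, w)] <:+ (d :: Q) := fun h => hsuf (h.trans (List.suffix_cons _ _))
      obtain ⟨a, r, cs, t, k1, k2, k3, k4, k5, k6, k7⟩ := struct hw n (d :: Q)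
        ⟨by simpa using h1, h2', h3', h4'⟩ hsuf'
      obtain ⟨Y, hY⟩ := dec_cons w cs a r k2
      have hae : Adj a (r.headD w) := adj_head k3 k4 hw
      have hem : (a, r.headD w) ∈ d :: Q := by rw [k1, hY]; simp
      -- a dart at `a` outside the decoded part forces a new vertex
      have hfresh : ∀ u, Adj a u → u ≠ r.headD w → (a, u) ∉ dec w (a :: r) cs → a ∉ r := by
        intro u hu hue hun har
        obtain ⟨x, y, g1, g2, g3⟩ := dec_two w cs a r k2 k5 a har Y hY
        have hYnd : (dec w (a :: r) cs).Nodup := by
          have : (t ++ dec w (a :: r) cs).Nodup := by rw [← k1]; exact h2'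
          exact (List.nodup_append.1 this).2.1
        rw [hY] at hYnd
        have heY := (List.nodup_cons.1 hYnd).1
        have hmem : ∀ z, (a, z) ∈ Y → Adj a z ∧ z ≠ r.headD w ∧ z ≠ u := by
          intro z hz
          refine ⟨?_, ?_, ?_⟩
          · refine hD (a, z) ?_
            rw [k1, hY]
            simp [hz]
          · rintro rfl; exact heY hz
          · rintro rfl; apply hun; rw [hY]; exact List.mem_cons_of_mem _ hz
        obtain ⟨x1, x2, x3⟩ := hmem x g2
        obtain ⟨y1, y2, y3⟩ := hmem y g3
        exact g1 ((third_unique hae hu x1 hue x2 x3).trans (third_unique hae hu y1 hue y2 y3).symm)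
      rcases k7 with rfl | ⟨u, l1, l2, rfl⟩ | ⟨u, u', l1, l2, l3, l4, l5, rfl⟩
      · rw [List.nil_append, hY] at k1
        simp only [List.cons.injEq] at k1
        obtain ⟨rfl, rfl⟩ := k1
        obtain ⟨m1, -, m3⟩ := hadj
        rcases m3 with ⟨m3, m4⟩ | ⟨m3, m4⟩
        · exfalso
          have e1 : d' = (r.headD w, a) := Prod.ext m3 m4
          cases r with
          | nil =>
            have e2 : cs = [] := List.length_eq_zero_iff.1 (by simpa using k2.symm)
            subst e2
            simp only [List.getLast?_singleton, Option.some.injEq] at k4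
            subst k4
            simp only [dec, List.headD_nil, List.cons.injEq, true_and] at hY
            rw [e1, ← hY] at hsuf
            exact hsuf (List.suffix_refl _)
          | cons e r =>
            cases cs with
            | nil => simp at k2
            | cons c cs =>
              rw [dec] at hY
              simp only [List.cons.injEq] at hY
              apply hnd
              rw [e1, ← hY.2]
              simp
        · refine ⟨a, r, cs, [(a, d'.2)], ?_, k2, k3, k4, k5, k6, Or.inr (Or.inl ⟨d'.2, ?_, m4, rfl⟩)⟩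
          · rw [hY]
            have e1 : d' = (a, d'.2) := Prod.ext m3 rfl
            rw [e1]; rfl
          · have := m1
            unfold IsD at this
            rw [m3] at this
            exact this
      · simp only [List.cons_append, List.nil_append, List.cons.injEq] at k1
        obtain ⟨rfl, rfl⟩ := k1
        obtain ⟨m1, -, m3⟩ := hadj
        rcases m3 with ⟨m3, m4⟩ | ⟨m3, m4⟩
        · have e1 : d' = (u, a) := Prod.ext m3 m4
          have hua : (a, u) ∉ dec w (a :: r) cs := (List.nodup_cons.1 h2').1
          refine ⟨u, a :: r, false :: cs, [], ?_, by simp [k2], ?_, ?_, ⟨l2, k5⟩, ?_, Or.inl rfl⟩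
          · rw [e1, dec]; rfl
          · exact List.IsChain.cons_cons l1.symm k3
          · rw [List.getLast?_cons_cons]; exact k4
          · exact List.nodup_cons.2 ⟨hfresh u l1 l2 hua, k6⟩
        · refine ⟨a, r, cs, [(a, d'.2), (a, u)], ?_, k2, k3, k4, k5, k6,
            Or.inr (Or.inr ⟨u, d'.2, l1, ?_, l2, ?_, fun h => m4 h.symm, rfl⟩)⟩
          · have e1 : d' = (a, d'.2) := Prod.ext m3 rfl
            rw [e1]; rfl
          · have := m1
            unfold IsD at this
            rw [m3] at this
            exact this
          · intro h5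
            apply hnd
            have e1 : d' = (a, r.headD w) := Prod.ext m3 h5
            rw [e1, hY]; simp
      · simp only [List.cons_append, List.nil_append, List.cons.injEq] at k1
        obtain ⟨rfl, rfl⟩ := k1
        obtain ⟨m1, -, m3⟩ := hadj
        have hu'n : (a, u') ∉ dec w (a :: r) cs := fun hm => (List.nodup_cons.1 h2').1 (List.mem_cons_of_mem _ hm)
        rcases m3 with ⟨m3, m4⟩ | ⟨m3, m4⟩
        · have e1 : d' = (u', a) := Prod.ext m3 m4
          have e2 : u = third a (r.headD w) u' := third_unique hae l2 l1 l4 l3 l5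
          refine ⟨u', a :: r, true :: cs, [], ?_, by simp [k2], ?_, ?_, ⟨l4, k5⟩, ?_, Or.inl rfl⟩
          · rw [e1, dec, ← e2]; rfl
          · exact List.IsChain.cons_cons l2.symm k3
          · rw [List.getLast?_cons_cons]; exact k4
          · exact List.nodup_cons.2 ⟨hfresh u' l2 l4 hu'n, k6⟩
        · exfalso
          have e1 : d' = (a, d'.2) := Prod.ext m3 rfl
          have g1 : Adj a d'.2 := by
            have := m1
            unfold IsD at this
            rw [m3] at this
            exact this
          have g2 : d'.2 ≠ r.headD w := by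
            intro h5
            apply hnd
            rw [e1, h5, hY]; simp
          have g3 : d'.2 ≠ u := by
            intro h5
            apply hnd
            rw [e1, h5]; simp
          have g4 := third_unique hae l2 g1 l4 g2 m4
          have g5 := third_unique hae l2 l1 l4 l3 l5
          exact g3 (g4.trans g5.symm)

end Pool.Agent.Hhelper64.T12
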