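import Pool.Agent.Hhelper64.T12.Tr
import Pool.Agent.HDN.Growth

/-!
Windows: a lower bound `c n^κ mu^n ≤ b n` and a polynomial upper bound give, for every `δ < κ`, a constant `K` such
that every window `[n, K n]` contains `m` with `b (2 m) / (b m)^2 ≤ D m^(-δ)`.
-/

namespace Pool.Agent.Hhelper64.T12

open Finset Filter Topology

lemma tele (g : ℕ → ℝ) (k : ℕ) :
    ∑ j ∈ range k, (1 / 2 : ℝ) ^ (j + 1) * (g (j + 1) - 2 * g j) = (1 / 2 : ℝ) ^ k * g k - g 0 := by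
  induction k with
  | zero => simp
  | succ k ih =>
    rw [sum_range_succ, ih]
    ring

lemma geo (k : ℕ) : ∑ j ∈ range k, (1 / 2 : ℝ) ^ (j + 1) = 1 - (1 / 2 : ℝ) ^ k := by
  induction k with
  | zero => simp
  | succ k ih =>
    rw [sum_range_succ, ih]
    ring

theorem window_gen (b : ℕ → ℝ) (hpos : ∀ n, 0 < b n) (mu : ℝ) (hmu : 0 < mu) (κ c : ℝ) (hc : 0 < c)
    (hlow : ∀ n : ℕ, 1 ≤ n → c * (n : ℝ) ^ κ * mu ^ n ≤ b n) (C : ℝ) (hC : 0 < C)
    (hup : ∀ n : ℕ, 1 ≤ n → b n ≤ C * (n : ℝ) ^ C * mu ^ n) (δ : ℝ) (hδ : δ < κ) :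
    ∃ (K : ℕ) (D : ℝ), 1 ≤ K ∧ 0 < D ∧ ∀ n : ℕ, 1 ≤ n → ∃ m : ℕ, n ≤ m ∧ m ≤ K * n ∧
      b (2 * m) / b m ^ 2 ≤ D * (m : ℝ) ^ (-δ) := by
  -- it is enough to take a nonnegative exponent, or any exponent below `κ`
  obtain ⟨k, hk1, hk2⟩ : ∃ k : ℕ, 1 ≤ k ∧ (1 / 2 : ℝ) ^ k * (C + |δ|) ≤ κ - δ := by
    have hlim : Tendsto (fun k : ℕ => (1 / 2 : ℝ) ^ k * (C + |δ|)) atTop (𝓝 (0 * (C + |δ|))) :=
      (tendsto_pow_atTop_nhds_zero_of_lt_one (by norm_num) (by norm_num)).mul_const _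
    rw [zero_mul] at hlim
    have h1 : 0 < κ - δ := by linarith
    obtain ⟨k, h2, h3⟩ := ((hlim.eventually (gt_mem_nhds h1)).and (eventually_ge_atTop 1)).exists
    exact ⟨k, h3, h2.le⟩
  set s : ℝ := (1 / 2 : ℝ) ^ k with hs
  have hs0 : 0 < s := by positivity
  have hs1 : s ≤ 1 / 2 := by
    have : (1 / 2 : ℝ) ^ k ≤ (1 / 2 : ℝ) ^ 1 := pow_le_pow_of_le_one (by norm_num) (by norm_num) hk1
    rwa [pow_one] at this
  have hl2 : 0 < Real.log 2 := Real.log_pos (by norm_num)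
  set A : ℝ := s * (Real.log C + C * (k * Real.log 2)) - Real.log c with hA
  set F : ℝ := 2 * |A| + 1 with hF
  refine ⟨2 ^ k, Real.exp (|δ| * (k * Real.log 2) + F), Nat.one_le_two_pow, Real.exp_pos _, fun n hn => ?_⟩
  have hn0 : (0 : ℝ) < n := by exact_mod_cast hn
  have hln : 0 ≤ Real.log n := Real.log_nonneg (by exact_mod_cast hn)
  by_contra hcon
  push Not at hcon
  set g : ℕ → ℝ := fun j => Real.log (b (2 ^ j * n)) - (2 : ℝ) ^ j * n * Real.log mu with hg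
  have hstep : ∀ j ∈ range k, (1 / 2 : ℝ) ^ (j + 1) * (F - δ * Real.log n) ≤
      (1 / 2 : ℝ) ^ (j + 1) * (g (j + 1) - 2 * g j) := by
    intro j hj
    rw [mem_range] at hj
    refine mul_le_mul_of_nonneg_left ?_ (by positivity)
    have hm0 : (0 : ℝ) < ((2 ^ j * n : ℕ) : ℝ) := by
      have : 0 < 2 ^ j * n := by positivity
      exact_mod_cast this
    have h1 := hcon (2 ^ j * n) (Nat.le_mul_of_pos_left n (by positivity))
      (Nat.mul_le_mul_right n (Nat.pow_le_pow_right (by norm_num) hj.le))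
    have h2 := Real.log_le_log (by positivity) h1.le
    rw [Real.log_mul (Real.exp_pos _).ne' (by positivity), Real.log_exp, Real.log_rpow hm0,
      Real.log_div (hpos _).ne' (pow_ne_zero 2 (hpos _).ne'), Real.log_pow] at h2
    have h3 : Real.log ((2 ^ j * n : ℕ) : ℝ) = j * Real.log 2 + Real.log n := by
      push_cast
      rw [Real.log_mul (by positivity) hn0.ne', Real.log_pow]
    rw [h3] at h2
    have h4 : g (j + 1) - 2 * g j = Real.log (b (2 * (2 ^ j * n))) - 2 * Real.log (b (2 ^ j * n)) := by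
      simp only [hg]
      rw [show 2 ^ (j + 1) * n = 2 * (2 ^ j * n) by ring]
      ring
    rw [h4]
    have h5 : δ * (j * Real.log 2) ≤ |δ| * (k * Real.log 2) := by
      have e1 : (j : ℝ) ≤ k := by exact_mod_cast hj.le
      have e2 : (j : ℝ) * Real.log 2 ≤ k * Real.log 2 := mul_le_mul_of_nonneg_right e1 hl2.le
      have e3 : δ * (j * Real.log 2) ≤ |δ| * (j * Real.log 2) :=
        mul_le_mul_of_nonneg_right (le_abs_self δ) (by positivity)
      exact e3.trans (mul_le_mul_of_nonneg_left e2 (abs_nonneg δ))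
    push_cast at h2
    linarith
  have hsum := sum_le_sum hstep
  rw [tele, ← sum_mul, geo] at hsum
  -- the two ends
  have hg0 : Real.log c + κ * Real.log n ≤ g 0 := by
    have h1 := Real.log_le_log (by positivity) (hlow n hn)
    rw [Real.log_mul (by positivity) (by positivity), Real.log_mul hc.ne' (by positivity),
      Real.log_rpow hn0, Real.log_pow] at h1
    simp only [hg, pow_zero, one_mul]
    linarith
  have hgk : g k ≤ Real.log C + C * (k * Real.log 2 + Real.log n) := by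
    have hN : 1 ≤ 2 ^ k * n := Nat.one_le_iff_ne_zero.2 (by positivity)
    have hN0 : (0 : ℝ) < ((2 ^ k * n : ℕ) : ℝ) := by exact_mod_cast hN
    have h1 := Real.log_le_log (hpos _) (hup (2 ^ k * n) hN)
    rw [Real.log_mul (by positivity) (by positivity), Real.log_mul hC.ne' (by positivity),
      Real.log_rpow hN0, Real.log_pow] at h1
    have h3 : Real.log ((2 ^ k * n : ℕ) : ℝ) = k * Real.log 2 + Real.log n := by
      push_cast
      rw [Real.log_mul (by positivity) hn0.ne', Real.log_pow]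
    rw [h3] at h1
    push_cast at h1
    simp only [hg]
    linarith
  have h1 : s * g k ≤ s * (Real.log C + C * (k * Real.log 2 + Real.log n)) :=
    mul_le_mul_of_nonneg_left hgk hs0.le
  have h2 : (1 - s) * F ≥ F / 2 := by
    have : 0 ≤ F := by positivity
    nlinarith
  have h3 : s * (C + |δ|) * Real.log n ≤ (κ - δ) * Real.log n := mul_le_mul_of_nonneg_right hk2 hln
  have h4 : s * δ * Real.log n ≥ -(s * |δ| * Real.log n) := by
    have : 0 ≤ s * Real.log n := by positivity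
    have h5 := mul_le_mul_of_nonneg_right (neg_abs_le δ) this
    nlinarith
  have h5 : A ≤ |A| := le_abs_self A
  rw [hF] at h2 hsum
  nlinarith

open Pool.Agent.Hhelper14.SAW Pool.Agent.Hhelper14.Honeycomb in
/-- Windows theorem for the honeycomb lattice. -/
theorem windowH (h : ∃ C : ℝ, 0 < C ∧ ∀ n : ℕ, 1 ≤ n → (an n : ℝ) ≤ C * (n : ℝ) ^ C * mu ^ n)
    (δ : ℝ) (hδ : δ < 1 / 262) :
    ∃ (K : ℕ) (D : ℝ), 1 ≤ K ∧ 0 < D ∧ ∀ n : ℕ, 1 ≤ n → ∃ m : ℕ, n ≤ m ∧ m ≤ K * n ∧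
      Pool.Agent.Hhelper14.Honeycomb.P m ≤ D * (m : ℝ) ^ (-δ) := by
  obtain ⟨C, hC, hup⟩ := h
  obtain ⟨c, hc, hlow⟩ := Pool.Agent.HDN.low
  obtain ⟨K, D, h1, h2, h3⟩ := window_gen (fun n => (an n : ℝ))
    (fun n => by have := a_pos n; rwa [Pool.Agent.Hhelper14.SAW.a_eq] at this) mu mu_pos (1 / 262) c hc hlow C hC hup δ hδ
  refine ⟨K, D, h1, h2, fun n hn => ?_⟩
  obtain ⟨m, k1, k2, k3⟩ := h3 n hn
  refine ⟨m, k1, k2, ?_⟩
  rw [P_eq, Pool.Agent.Hhelper14.SAW.a_eq, Pool.Agent.Hhelper14.SAW.a_eq]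
  exact k3

open Pool.Agent.Hhelper14.SAW in
/-- Windows theorem for the lattice `(3,12^2)`. -/
theorem window12 (h : ∃ C : ℝ, 0 < C ∧ ∀ n : ℕ, 1 ≤ n → (an n : ℝ) ≤ C * (n : ℝ) ^ C * mu ^ n)
    (δ : ℝ) (hδ : δ < 1 / 262) :
    ∃ (K : ℕ) (D : ℝ), 1 ≤ K ∧ 0 < D ∧ ∀ x ∈ Pool.Agent.Hhelper64.ThreeTwelve.V, ∀ n : ℕ, 1 ≤ n →
      ∃ m : ℕ, n ≤ m ∧ m ≤ K * n ∧ Pool.Agent.Hhelper64.ThreeTwelve.P x m ≤ D * (m : ℝ) ^ (-δ) := by
  obtain ⟨c, hc, hlow⟩ := bn_low_gen (1 / 262) (by norm_num) Pool.Agent.HDN.low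
  obtain ⟨C, hC, hup⟩ := poly12 h
  have hx := xx_pos
  have hup' : ∀ n : ℕ, 1 ≤ n → (bn n : ℝ) ≤ C * (n : ℝ) ^ C * (1 / xx) ^ n := by
    intro n hn
    have h0 : em d0 ∈ Pool.Agent.Hhelper64.ThreeTwelve.V := em_mem isD_d0
    have := (hup _ h0 n hn).1
    rwa [muL_eq' h0, a_eq_bn h0] at this
  obtain ⟨K, D, h1, h2, h3⟩ := window_gen (fun n => (bn n : ℝ)) bn_pos (1 / xx) (by positivity) (1 / 262) c hc
    hlow C hC hup' δ hδ
  refine ⟨K, D, h1, h2, fun x hxV n hn => ?_⟩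
  obtain ⟨m, k1, k2, k3⟩ := h3 n hn
  refine ⟨m, k1, k2, ?_⟩
  rw [P_eq12 hxV]
  exact k3

end Pool.Agent.Hhelper64.T12
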