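import Pool.Agent.Hhelper64.T12.TwoDefs
import Pool.Agent.Hhelper64.T12.Tr2

/-!
The polynomial bounds and the windows theorem for the honeycomb lattice and the lattice `(3,12^2)` in one form.
-/

namespace Pool.Agent.Hhelper64.Two

open Pool.Agent.Hhelper14 Pool.Agent.Hhelper64 Pool.Agent.Hhelper64.T12

/-! ### The honeycomb lattice -/

lemma a_hon (n : ℕ) : a honeycomb n = Honeycomb.a n := rfl
lemma muL_hon : muL honeycomb = Honeycomb.muL := rfl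
lemma P_hon (n : ℕ) : P honeycomb n = Honeycomb.P n := rfl

/-! ### The lattice `(3,12^2)` -/

/-- The similarity taking `truncated` to `ThreeTwelve.V`. -/
noncomputable def sim (z : ℂ) : ℂ := (ThreeTwelve.len : ℂ) * z + em d0

lemma len_ne : (ThreeTwelve.len : ℂ) ≠ 0 := by exact_mod_cast len_pos.ne'

lemma em_d0 : em d0 = -(2 - (Real.sqrt 3 : ℂ)) := by
  unfold T12.em d0 SAW.emb SAW.o SAW.o'
  push_cast
  ring

lemma sqrt3_sq : (Real.sqrt 3 : ℂ) * (Real.sqrt 3 : ℂ) = 3 := by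
  have h : Real.sqrt 3 * Real.sqrt 3 = 3 := Real.mul_self_sqrt (by norm_num)
  exact_mod_cast h

lemma sqrt3_ne : (Real.sqrt 3 : ℂ) ≠ 0 := by
  have h : Real.sqrt 3 ≠ 0 := (Real.sqrt_pos.2 (by norm_num)).ne'
  exact_mod_cast h

lemma sim_eq (v w : ℂ) : sim ((1 + 2 / (Real.sqrt 3 : ℂ)) * v + (w - v + 1) / (Real.sqrt 3 : ℂ)) =
    v + (2 - (Real.sqrt 3 : ℂ)) * (w - v) := by
  have h1 := sqrt3_sq
  have h2 := sqrt3_ne
  unfold sim
  rw [em_d0]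
  have e1 : (ThreeTwelve.len : ℂ) = 2 * (Real.sqrt 3 : ℂ) - 3 := by
    unfold ThreeTwelve.len; push_cast; ring
  rw [e1]
  have e2 : (1 : ℂ) / (Real.sqrt 3 : ℂ) = (Real.sqrt 3 : ℂ) / 3 := by
    rw [div_eq_div_iff h2 (by norm_num), ← h1]; ring
  have e3 : (2 : ℂ) / (Real.sqrt 3 : ℂ) = 2 * ((Real.sqrt 3 : ℂ) / 3) := by rw [← e2]; ring
  have e4 : (w - v + 1) / (Real.sqrt 3 : ℂ) = (w - v + 1) * ((Real.sqrt 3 : ℂ) / 3) := by rw [← e2]; ring
  rw [e3, e4]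
  linear_combination (2 / 3 * (w - v + 1) + 4 / 3 * v) * h1

lemma sim_inj : Function.Injective sim := by
  intro z z' h
  unfold sim at h
  exact mul_left_cancel₀ len_ne (add_right_cancel h)

lemma mem_trunc {z : ℂ} : z ∈ truncated ↔ sim z ∈ ThreeTwelve.V := by
  constructor
  · rintro ⟨v, hv, w, hw, hd, rfl⟩
    exact ⟨v, hv, w, hw, hd, sim_eq v w⟩
  · rintro ⟨v, hv, w, hw, hd, h⟩
    refine ⟨v, hv, w, hw, hd, sim_inj ?_⟩
    rw [h, sim_eq]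

lemma sim_zero : sim 0 = em d0 := by unfold sim; ring

lemma sim_surj (z : ℂ) : ∃ y, sim y = z := by
  refine ⟨(z - em d0) / (ThreeTwelve.len : ℂ), ?_⟩
  unfold sim
  rw [mul_div_cancel₀ _ len_ne]
  ring

lemma dist_sim (x y : ℂ) : dist (sim x) (sim y) = ThreeTwelve.len ↔ dist x y = 1 := by
  have h1 : dist (sim x) (sim y) = ThreeTwelve.len * dist x y := by
    unfold sim
    rw [dist_eq_norm, dist_eq_norm, add_sub_add_right_eq_sub, ← mul_sub, norm_mul, Complex.norm_real,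
      Real.norm_eq_abs, abs_of_pos len_pos]
  rw [h1]
  constructor
  · intro h
    have := len_pos
    exact mul_left_cancel₀ this.ne' (by rw [h, mul_one])
  · intro h
    rw [h, mul_one]

lemma comp_inj (n : ℕ) : Function.Injective (fun (w : Fin (n + 1) → ℂ) i => sim (w i)) := by
  intro w w' h
  funext i
  exact sim_inj (congrFun h i)

lemma mem_Omega {n : ℕ} {w : Fin (n + 1) → ℂ} :
    (fun i => sim (w i)) ∈ ThreeTwelve.Omega (em d0) n ↔ w ∈ Omega truncated n := by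
  unfold ThreeTwelve.Omega Omega
  constructor
  · rintro ⟨h0, h1, h2, h3⟩
    refine ⟨sim_inj (h0.trans sim_zero.symm), fun i => mem_trunc.2 (h1 i), fun i => (dist_sim _ _).1 (h2 i),
      fun i j hij => h3 (congrArg sim hij)⟩
  · rintro ⟨h0, h1, h2, h3⟩
    refine ⟨?_, fun i => mem_trunc.1 (h1 i), fun i => (dist_sim _ _).2 (h2 i), fun i j hij => h3 (sim_inj hij)⟩
    simp only [h0, sim_zero]

lemma exists_pre {n : ℕ} (y : Fin (n + 1) → ℂ) : ∃ w : Fin (n + 1) → ℂ, (fun i => sim (w i)) = y := by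
  choose f hf using sim_surj
  exact ⟨fun i => f (y i), funext fun i => hf _⟩

lemma a_tr (n : ℕ) : a truncated n = ThreeTwelve.a (em d0) n := by
  have h : ThreeTwelve.Omega (em d0) n = (fun (w : Fin (n + 1) → ℂ) i => sim (w i)) '' Omega truncated n := by
    ext y
    constructor
    · intro hy
      obtain ⟨w, rfl⟩ := exists_pre y
      exact ⟨w, mem_Omega.1 hy, rfl⟩
    · rintro ⟨w, hw, rfl⟩
      exact mem_Omega.2 hw
  unfold a ThreeTwelve.a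
  rw [h, Set.ncard_image_of_injective _ (comp_inj n)]

lemma pairs_tr (n : ℕ) : (Pairs truncated n).ncard = (ThreeTwelve.Pairs (em d0) n).ncard := by
  have h : ThreeTwelve.Pairs (em d0) n = (Prod.map (fun (w : Fin (n + 1) → ℂ) i => sim (w i))
      (fun (w : Fin (n + 1) → ℂ) i => sim (w i))) '' Pairs truncated n := by
    ext ⟨y, y'⟩
    constructor
    · rintro ⟨h1, h2, h3⟩
      obtain ⟨w, rfl⟩ := exists_pre y
      obtain ⟨w', rfl⟩ := exists_pre y'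
      exact ⟨(w, w'), ⟨mem_Omega.1 h1, mem_Omega.1 h2, fun i j hi hij => h3 i j hi (congrArg sim hij)⟩, rfl⟩
    · rintro ⟨⟨w, w'⟩, ⟨h1, h2, h3⟩, h4⟩
      simp only [Prod.map_apply, Prod.mk.injEq] at h4
      obtain ⟨rfl, rfl⟩ := h4
      exact ⟨mem_Omega.2 h1, mem_Omega.2 h2, fun i j hi hij => h3 i j hi (sim_inj hij)⟩
  rw [h, Set.ncard_image_of_injective]
  exact (comp_inj n).prodMap (comp_inj n)

lemma muL_tr : muL truncated = ThreeTwelve.muL (em d0) := by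
  unfold muL ThreeTwelve.muL
  simp only [a_tr]

lemma P_tr (n : ℕ) : P truncated n = ThreeTwelve.P (em d0) n := by
  unfold P ThreeTwelve.P
  rw [a_tr, pairs_tr]

/-! ### Both lattices -/

/-- All the facts on the sequence `a L`. -/
theorem facts (h : ∃ C : ℝ, 0 < C ∧ ∀ n : ℕ, 1 ≤ n → (SAW.an n : ℝ) ≤ C * (n : ℝ) ^ C * SAW.mu ^ n)
    (L : Set ℂ) (hL : L = honeycomb ∨ L = truncated) :
    0 < muL L ∧ (∀ n, (0 : ℝ) < a L n) ∧ (∀ n, P L n = (a L (2 * n) : ℝ) / (a L n : ℝ) ^ 2) ∧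
    (∀ n, muL L ^ n ≤ (a L n : ℝ)) ∧
    (∃ c : ℝ, 0 < c ∧ ∀ n : ℕ, 1 ≤ n → c * (n : ℝ) ^ (1 / 262 : ℝ) * muL L ^ n ≤ a L n) ∧
    (∃ C : ℝ, 0 < C ∧ ∀ n : ℕ, 1 ≤ n → (a L n : ℝ) ≤ C * (n : ℝ) ^ C * muL L ^ n) := by
  have hmuL := SAW.muL_eq SAW.hw_quant
  rcases hL with rfl | rfl
  · rw [muL_hon, hmuL]
    simp only [a_hon, P_hon, SAW.P_eq, SAW.a_eq]
    have hpos : ∀ n, (0 : ℝ) < SAW.an n := fun n => by have := SAW.a_pos n; rwa [SAW.a_eq] at this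
    refine ⟨SAW.mu_pos, hpos, fun n => trivial, ?_, Pool.Agent.HDN.low, h⟩
    intro n
    rcases Nat.eq_zero_or_pos n with rfl | hn
    · rw [pow_zero, SAW.an_zero]; norm_num
    · have hbdd : BddBelow (Set.range (fun n : {n : ℕ // 1 ≤ n} =>
          (Honeycomb.a n : ℝ) ^ (1 / ((n : ℕ) : ℝ)))) := by
        refine ⟨0, ?_⟩
        rintro _ ⟨m, rfl⟩
        exact Real.rpow_nonneg (Nat.cast_nonneg _) _
      have h1 : Honeycomb.muL ≤ (Honeycomb.a n : ℝ) ^ (1 / (n : ℝ)) := ciInf_le hbdd ⟨n, hn⟩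
      rw [hmuL, SAW.a_eq] at h1
      have hn0 : (n : ℝ) ≠ 0 := by exact_mod_cast (by omega : n ≠ 0)
      have h2 := pow_le_pow_left₀ SAW.mu_pos.le h1 n
      rwa [← Real.rpow_natCast ((SAW.an n : ℝ) ^ (1 / (n : ℝ))), ← Real.rpow_mul (Nat.cast_nonneg _),
        one_div_mul_cancel hn0, Real.rpow_one] at h2
  · have h0 : em d0 ∈ ThreeTwelve.V := em_mem isD_d0
    have hx := xx_pos
    rw [muL_tr, muL_eq' h0]
    simp only [a_tr, P_tr, P_eq12 h0, a_eq_bn h0]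
    refine ⟨by positivity, bn_pos, fun n => trivial, ?_, bn_low_gen (1 / 262) (by norm_num) Pool.Agent.HDN.low, ?_⟩
    · intro n
      rcases Nat.eq_zero_or_pos n with rfl | hn
      · rw [pow_zero, bn_zero]; norm_num
      · exact pow_le_bn n hn
    · obtain ⟨C, hC, h1⟩ := poly12 h
      refine ⟨C, hC, fun n hn => ?_⟩
      have := (h1 _ h0 n hn).1
      rwa [muL_eq' h0, a_eq_bn h0] at this

/-- Polynomial bounds for every length, on both lattices. -/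
theorem poly2 (h : ∃ C : ℝ, 0 < C ∧ ∀ n : ℕ, 1 ≤ n → (SAW.an n : ℝ) ≤ C * (n : ℝ) ^ C * SAW.mu ^ n)
    (L : Set ℂ) (hL : L = honeycomb ∨ L = truncated) : ∃ C : ℝ, 0 < C ∧ ∀ n : ℕ, 1 ≤ n →
      (a L n : ℝ) ≤ C * (n : ℝ) ^ C * muL L ^ n ∧ (n : ℝ) ^ (-C) / C ≤ P L n := by
  obtain ⟨hmu, hpos, hP, hge, -, C₁, hC₁, hup⟩ := facts h L hL
  set D : ℝ := max C₁ 1 with hD
  have hD1 : 1 ≤ D := le_max_right _ _
  have hCD : C₁ ≤ D := le_max_left _ _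
  have hup2 : ∀ n : ℕ, 1 ≤ n → (a L n : ℝ) ≤ D * (n : ℝ) ^ D * muL L ^ n := by
    intro n hn
    have hn1 : (1 : ℝ) ≤ n := by exact_mod_cast hn
    refine (hup n hn).trans ?_
    have e1 : (n : ℝ) ^ C₁ ≤ (n : ℝ) ^ D := Real.rpow_le_rpow_of_exponent_le hn1 hCD
    gcongr
  set C : ℝ := 2 * D ^ 2 with hC
  have hC1 : 2 * D ≤ C := by rw [hC]; nlinarith
  have hC2 : D ^ 2 ≤ C := by rw [hC]; nlinarith
  have hC0 : 0 < C := by linarith
  refine ⟨C, hC0, fun n hn => ?_⟩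
  have hn1 : (1 : ℝ) ≤ n := by exact_mod_cast hn
  have hn0 : (0 : ℝ) < n := by linarith
  constructor
  · refine (hup2 n hn).trans ?_
    have e1 : (n : ℝ) ^ D ≤ (n : ℝ) ^ C := Real.rpow_le_rpow_of_exponent_le hn1 (by linarith)
    have e2 : D ≤ C := by linarith
    gcongr
  · rw [hP]
    have g1 := hup2 n hn
    have g2 := hge (2 * n)
    have g3 := hpos n
    have g4 : 0 < muL L ^ n := pow_pos hmu n
    rw [div_le_div_iff₀ hC0 (by positivity)]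
    have g5 : (a L n : ℝ) ^ 2 ≤ (D * (n : ℝ) ^ D * muL L ^ n) ^ 2 := pow_le_pow_left₀ g3.le g1 2
    have g6 : ((n : ℝ) ^ D) ^ 2 = (n : ℝ) ^ (2 * D) := by
      rw [← Real.rpow_natCast, ← Real.rpow_mul hn0.le]; congr 1; push_cast; ring
    have g7 : (n : ℝ) ^ (-C) * (n : ℝ) ^ (2 * D) ≤ 1 := by
      rw [← Real.rpow_add hn0]
      exact Real.rpow_le_one_of_one_le_of_nonpos hn1 (by linarith)
    calc (n : ℝ) ^ (-C) * (a L n : ℝ) ^ 2 ≤ (n : ℝ) ^ (-C) * (D * (n : ℝ) ^ D * muL L ^ n) ^ 2 := by gcongr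
      _ = D ^ 2 * ((n : ℝ) ^ (-C) * (n : ℝ) ^ (2 * D)) * (muL L ^ n) ^ 2 := by
          rw [mul_pow, mul_pow, g6]; ring
      _ ≤ C * 1 * (muL L ^ n) ^ 2 := by gcongr
      _ = muL L ^ (2 * n) * C := by rw [← pow_mul, mul_comm n 2]; ring
      _ ≤ a L (2 * n) * C := by gcongr

/-- Windows theorem on both lattices. -/
theorem window2 (h : ∃ C : ℝ, 0 < C ∧ ∀ n : ℕ, 1 ≤ n → (SAW.an n : ℝ) ≤ C * (n : ℝ) ^ C * SAW.mu ^ n)
    (L : Set ℂ) (hL : L = honeycomb ∨ L = truncated) (δ : ℝ) (hδ : δ < 1 / 262) :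
    ∃ (K : ℕ) (C : ℝ), 0 < C ∧ ∀ n : ℕ, 1 ≤ n → ∃ m : ℕ, n ≤ m ∧ m ≤ K * n ∧
      P L m ≤ C * (m : ℝ) ^ (-δ) := by
  obtain ⟨hmu, hpos, hP, -, ⟨c, hc, hlow⟩, C₁, hC₁, hup⟩ := facts h L hL
  obtain ⟨K, D, -, h2, h3⟩ := window_gen (fun n => (a L n : ℝ)) hpos (muL L) hmu (1 / 262) c hc hlow C₁ hC₁ hup
    δ hδ
  refine ⟨K, D, h2, fun n hn => ?_⟩
  obtain ⟨m, k1, k2, k3⟩ := h3 n hn
  refine ⟨m, k1, k2, ?_⟩
  rw [hP]
  exact k3

end Pool.Agent.Hhelper64.Two
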