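import Pool.Agent.Hhelper64.T12.Final

/-!
Transfer of bounds for the number of self-avoiding paths from the honeycomb lattice to the lattice `(3,12^2)`:
upper bounds with a monotone correction factor, lower bounds with a power, and the identity
`P_n = a_(2n) / a_n^2`.
-/

namespace Pool.Agent.Hhelper64.T12

open Pool.Agent.Hhelper14.SAW Pool.Agent.Hhelper64.ThreeTwelve Finset Filter Topology

/-- The converse of `pairs_le`: cut a path of length `2 n` at its middle vertex. -/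
theorem pairs_ge {X : Type*} {R : X → X → Prop} {S : Set X} {x : X} {τ : X → X → X} (H : Homog R S x τ)
    (n : ℕ) : (SF R x (2 * n)).ncard ≤ (PairsG R x n).ncard := by
  have hl : ∀ i : Fin (n + 1), n - (i : ℕ) < 2 * n + 1 := fun i => by omega
  have hr : ∀ i : Fin (n + 1), n + (i : ℕ) < 2 * n + 1 := fun i => by omega
  have hm : n < 2 * n + 1 := by omega
  set f : (Fin (2 * n + 1) → X) → (Fin (n + 1) → X) × (Fin (n + 1) → X) := fun w =>
    ((fun i => τ (w ⟨n, hm⟩) (w ⟨n - i, hl i⟩)), (fun i => τ (w ⟨n, hm⟩) (w ⟨n + i, hr i⟩))) with hf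
  refine Set.ncard_le_ncard_of_injOn f ?_ ?_ (PairsG_finite H.fin x n)
  · intro w hw
    have hS := SF_mem H H.base hw
    obtain ⟨h0, h1, h2⟩ := hw
    refine ⟨⟨?_, fun i => ?_, ?_⟩, ⟨?_, fun i => ?_, ?_⟩, fun i j hi hij => ?_⟩
    · exact H.move _ (hS _)
    · simp only [hf]
      apply H.map _ (hS _)
      apply H.symm
      have := h1 ⟨n - (i + 1), by omega⟩
      have e1 : (⟨n - (i + 1), by omega⟩ : Fin (2 * n)).castSucc = ⟨n - (i.succ : Fin (n + 1)), hl _⟩ :=
        Fin.ext (by simp)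
      have e2 : (⟨n - (i + 1), by omega⟩ : Fin (2 * n)).succ = ⟨n - (i.castSucc : Fin (n + 1)), hl _⟩ :=
        Fin.ext (by simp; omega)
      rw [e1, e2] at this
      exact this
    · intro i j hij
      simp only [hf] at hij
      have := h2 (H.inj _ (hS _) hij)
      simp only [Fin.mk.injEq] at this
      exact Fin.ext (by omega)
    · exact H.move _ (hS _)
    · simp only [hf]
      apply H.map _ (hS _)
      have := h1 ⟨n + i, by omega⟩
      have e1 : (⟨n + i, by omega⟩ : Fin (2 * n)).castSucc = ⟨n + (i.castSucc : Fin (n + 1)), hr _⟩ :=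
        Fin.ext (by simp)
      have e2 : (⟨n + i, by omega⟩ : Fin (2 * n)).succ = ⟨n + (i.succ : Fin (n + 1)), hr _⟩ :=
        Fin.ext (by simp; omega)
      rw [e1, e2] at this
      exact this
    · intro i j hij
      simp only [hf] at hij
      have := h2 (H.inj _ (hS _) hij)
      simp only [Fin.mk.injEq] at this
      exact Fin.ext (by omega)
    · simp only [hf] at hij
      have := h2 (H.inj _ (hS _) hij)
      simp only [Fin.mk.injEq] at this
      exact hi (Fin.ext (by rw [Fin.val_zero]; omega))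
  · intro w hw y hy heq
    have hS := SF_mem H H.base hw
    have hS' := SF_mem H H.base hy
    simp only [hf, Prod.mk.injEq] at heq
    obtain ⟨q1, q2⟩ := heq
    have hmid : w ⟨n, hm⟩ = y ⟨n, hm⟩ := by
      have h1 := congrFun q1 (Fin.last n)
      have e1 : (⟨n - (Fin.last n : Fin (n + 1)), hl _⟩ : Fin (2 * n + 1)) = 0 := Fin.ext (by simp)
      rw [e1, hw.1, hy.1] at h1
      exact H.faithful _ (hS _) _ (hS' _) h1
    funext i
    by_cases hi : (i : ℕ) ≤ n
    · have h1 := congrFun q1 ⟨n - i, by omega⟩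
      simp only at h1
      rw [← hmid] at h1
      have h2 := H.inj _ (hS _) h1
      have e1 : (⟨n - (n - (i : ℕ)), by omega⟩ : Fin (2 * n + 1)) = i := Fin.ext (by simp; omega)
      rw [e1] at h2
      exact h2
    · have h1 := congrFun q2 ⟨i - n, by omega⟩
      simp only at h1
      rw [← hmid] at h1
      have h2 := H.inj _ (hS _) h1
      have e1 : (⟨n + ((i : ℕ) - n), by omega⟩ : Fin (2 * n + 1)) = i := Fin.ext (by simp; omega)
      rw [e1] at h2
      exact h2

theorem pairs_ge_bn {x : ℂ} (hx : x ∈ V) (n : ℕ) : bn (2 * n) ≤ (Pairs x n).ncard := by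
  obtain ⟨d, hd, rfl⟩ := mem_V12.1 hx
  rw [pairs_eq hd]
  refine (pairs_ge homog n).trans ?_
  obtain ⟨σ, s1, s2, s3⟩ := homog.back d hd
  refine Set.ncard_le_ncard_of_injOn
    (Prod.map (fun (w : Fin (n + 1) → Dt) i => σ (w i)) (fun (w : Fin (n + 1) → Dt) i => σ (w i)))
    ?_ ?_ (PairsG_finite LR_finite d n)
  · rintro ⟨w, w'⟩ ⟨h1, h2, h3⟩
    simp only at h1 h2 h3
    refine ⟨⟨?_, fun i => s2 _ _ (h1.2.1 i), s1.comp h1.2.2⟩,
      ⟨?_, fun i => s2 _ _ (h2.2.1 i), s1.comp h2.2.2⟩, fun i j hi hij => h3 i j hi (s1 hij)⟩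
    · simp only [Prod.map_apply, h1.1]; exact s3
    · simp only [Prod.map_apply, h2.1]; exact s3
  · have hinj : Function.Injective (fun (w : Fin (n + 1) → Dt) i => σ (w i)) := by
      intro w w' h
      funext i
      exact s1 (congrFun h i)
    exact (hinj.prodMap hinj).injOn

/-- `P_n = a_(2n) / a_n^2` on the lattice `(3,12^2)`. -/
theorem P_eq12 {x : ℂ} (hx : x ∈ V) (n : ℕ) : P x n = (bn (2 * n) : ℝ) / (bn n : ℝ) ^ 2 := by
  unfold P
  rw [a_eq_bn hx, le_antisymm (pairs_le_bn hx n) (pairs_ge_bn hx n)]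

/-- Transfer of an upper bound with a monotone correction factor. -/
theorem bn_up_gen (f : ℕ → ℝ) (hf : Monotone f) (h1 : ∀ n, 1 ≤ f n)
    (h : ∀ n : ℕ, (an n : ℝ) ≤ mu ^ n * f n) (n : ℕ) : (bn n : ℝ) ≤ 216 * ((1 / xx) ^ n * f n) := by
  have hx := xx_pos
  have hx1 := xx_lt
  have hmu := mu_bounds
  have hmu' := mu_pos
  have f0 : ∀ n, 0 ≤ f n := fun n => zero_le_one.trans (h1 n)
  have hq : 1 ≤ 1 / xx := by rw [le_div_iff₀ hx]; linarith
  have hnw : ∀ k : ℕ, (nw k : ℝ) ≤ 6 * (mu ^ k * f k) := by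
    intro k
    cases k with
    | zero =>
      simp only [nw, Nat.cast_one, pow_zero, one_mul]
      have := h1 0
      linarith
    | succ k =>
      unfold nw
      push_cast
      have e2 : mu ^ k ≤ mu ^ (k + 1) := pow_le_pow_right₀ (by linarith) (Nat.le_succ k)
      have e4 : mu ^ k * f k ≤ mu ^ (k + 1) * f (k + 1) :=
        mul_le_mul e2 (hf (Nat.le_succ k)) (f0 k) (by positivity)
      have := h k
      linarith
  have hNC : ∀ n : ℕ, ((NC n).ncard : ℝ) ≤ 108 * ((1 / xx) ^ n * f n) := by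
    intro n
    have g1 : ((NC n).ncard : ℝ) ≤ ∑ j ∈ range 3, if j ≤ n then
        6 * ∑ k ∈ range (n + 1), (nw k : ℝ) * cnt k (n - j) else 0 := by
      have := NC_card n
      have h2 : (((NC n).ncard : ℕ) : ℝ) ≤ ((∑ j ∈ range 3, if j ≤ n then
        6 * ∑ k ∈ range (n + 1), nw k * cnt k (n - j) else 0 : ℕ) : ℝ) := by exact_mod_cast this
      refine h2.trans (le_of_eq ?_)
      push_cast
      rfl
    refine g1.trans ?_
    have g2 : ∀ j ∈ range 3, (if j ≤ n then 6 * ∑ k ∈ range (n + 1), (nw k : ℝ) * cnt k (n - j) else 0) ≤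
        36 * ((1 / xx) ^ n * f n) := by
      intro j _
      split_ifs with hj
      · have h3 : ∑ k ∈ range (n + 1), (nw k : ℝ) * cnt k (n - j) ≤
            6 * (f n * (1 / xx) ^ (n - j)) * ∑ k ∈ range (n + 1), pp k (n - j) := by
          rw [mul_sum]
          refine sum_le_sum fun k hk => ?_
          have hkn : k ≤ n := by rw [mem_range] at hk; omega
          have e4 : (1 / xx) ^ (n - j) * xx ^ (n - j) = 1 := by
            rw [← mul_pow, one_div_mul_cancel hx.ne', one_pow]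
          have e5 : (nw k : ℝ) ≤ 6 * (mu ^ k * f n) := by
            refine (hnw k).trans ?_
            have : mu ^ k * f k ≤ mu ^ k * f n := mul_le_mul_of_nonneg_left (hf hkn) (by positivity)
            linarith
          calc (nw k : ℝ) * cnt k (n - j) ≤ 6 * (mu ^ k * f n) * cnt k (n - j) :=
                mul_le_mul_of_nonneg_right e5 (by positivity)
            _ = 6 * (mu ^ k * f n) * cnt k (n - j) * ((1 / xx) ^ (n - j) * xx ^ (n - j)) := by
                rw [e4, mul_one]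
            _ = _ := by unfold pp; ring
        have h4 : ∑ k ∈ range (n + 1), pp k (n - j) ≤ 1 := by
          rw [uu_eq (by omega)]; exact uu_le _
        have h40 : 0 ≤ ∑ k ∈ range (n + 1), pp k (n - j) := sum_nonneg fun _ _ => pp_nonneg _ _
        have h5 : (1 / xx) ^ (n - j) ≤ (1 / xx) ^ n := pow_le_pow_right₀ hq (Nat.sub_le n j)
        have h50 : 0 ≤ (1 / xx) ^ (n - j) := by positivity
        have h51 : 0 ≤ (1 / xx) ^ n := by positivity
        have h6 : f n * (1 / xx) ^ (n - j) * ∑ k ∈ range (n + 1), pp k (n - j) ≤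
            f n * (1 / xx) ^ n * 1 :=
          mul_le_mul (mul_le_mul_of_nonneg_left h5 (f0 n)) h4 h40 (mul_nonneg (f0 n) h51)
        nlinarith
      · have : 0 ≤ (1 / xx) ^ n := by positivity
        have := mul_nonneg this (f0 n)
        linarith
    refine (sum_le_sum g2).trans (le_of_eq ?_)
    rw [sum_const, card_range]
    simp only [nsmul_eq_mul]
    push_cast
    ring
  cases n with
  | zero =>
    rw [bn_zero]
    have := h1 0
    simp only [Nat.cast_one, pow_zero, one_mul]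
    linarith
  | succ n =>
    have g1 : (bn (n + 1) : ℝ) ≤ (NC (n + 1)).ncard + (NC n).ncard := by exact_mod_cast upper_split n
    have g2 := hNC (n + 1)
    have g3 := hNC n
    have g4 : (1 / xx) ^ n * f n ≤ (1 / xx) ^ (n + 1) * f (n + 1) :=
      mul_le_mul (pow_le_pow_right₀ hq (Nat.le_succ n)) (hf (Nat.le_succ n)) (f0 n) (by positivity)
    linarith

/-- Transfer of a lower bound with a power. -/
theorem bn_low_gen (e : ℝ) (he : 0 ≤ e) (h : ∃ c : ℝ, 0 < c ∧ ∀ n : ℕ, 1 ≤ n → c * (n : ℝ) ^ e * mu ^ n ≤ an n) :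
    ∃ c : ℝ, 0 < c ∧ ∀ n : ℕ, 1 ≤ n → c * (n : ℝ) ^ e * (1 / xx) ^ n ≤ bn n := by
  obtain ⟨c, hc, hlow⟩ := h
  have hmu := mu_pos
  have hx := xx_pos
  have hm0 := m0_pos
  have h3 : (0 : ℝ) < 3 ^ e := by positivity
  refine ⟨min xx (2 / 3 * c * (m0 / 3 ^ e)), by positivity, ?_⟩
  intro n hn
  rcases Nat.lt_or_ge n 2 with h | h
  · obtain rfl : n = 1 := by omega
    have h1 : (1 : ℝ) ≤ bn 1 := by exact_mod_cast bn_one
    refine le_trans ?_ h1
    rw [Nat.cast_one, Real.one_rpow, mul_one, pow_one]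
    calc min xx (2 / 3 * c * (m0 / 3 ^ e)) * (1 / xx) ≤ xx * (1 / xx) :=
          mul_le_mul_of_nonneg_right (min_le_left _ _) (by positivity)
      _ = 1 := by field_simp
  · have hn0 : (0 : ℝ) < n := by exact_mod_cast hn
    have h1 : (2 : ℝ) * ∑ k ∈ range (n + 1), (an k : ℝ) * cnt k n ≤ 3 * bn n := by
      exact_mod_cast lower n
    have h2 : c * ((n : ℝ) / 3) ^ e * (1 / xx) ^ n * uu n ≤
        ∑ k ∈ range (n + 1), (an k : ℝ) * cnt k n := by
      unfold uu
      rw [mul_sum]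
      refine sum_le_sum fun k _ => ?_
      by_cases hk : 3 * k < n
      · have : cnt k n = 0 := cnt_eq_zero k n (Or.inr hk)
        unfold pp; rw [this]; simp
      · have hk1 : 1 ≤ k := by omega
        have hk3 : (n : ℝ) / 3 ≤ k := by
          rw [div_le_iff₀ (by norm_num)]
          have : n ≤ k * 3 := by omega
          exact_mod_cast this
        have e1 := hlow k hk1
        have e2 : ((n : ℝ) / 3) ^ e ≤ (k : ℝ) ^ e :=
          Real.rpow_le_rpow (by positivity) hk3 he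
        have e3 : c * ((n : ℝ) / 3) ^ e * mu ^ k ≤ an k := by
          refine le_trans ?_ e1
          gcongr
        have e4 : (1 / xx) ^ n * xx ^ n = 1 := by
          rw [← mul_pow, one_div_mul_cancel hx.ne', one_pow]
        calc c * ((n : ℝ) / 3) ^ e * (1 / xx) ^ n * pp k n
            = (c * ((n : ℝ) / 3) ^ e * mu ^ k) * cnt k n * ((1 / xx) ^ n * xx ^ n) := by
              unfold pp; ring
          _ = (c * ((n : ℝ) / 3) ^ e * mu ^ k) * cnt k n := by rw [e4, mul_one]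
          _ ≤ an k * cnt k n := mul_le_mul_of_nonneg_right e3 (by positivity)
    have h4 := le_uu n h
    have h5 : c * ((n : ℝ) / 3) ^ e * (1 / xx) ^ n * m0 ≤
        c * ((n : ℝ) / 3) ^ e * (1 / xx) ^ n * uu n :=
      mul_le_mul_of_nonneg_left h4 (by positivity)
    have h6 : ((n : ℝ) / 3) ^ e = (n : ℝ) ^ e / 3 ^ e :=
      Real.div_rpow (by positivity) (by norm_num) _
    rw [h6] at h2 h5
    have h7 : min xx (2 / 3 * c * (m0 / 3 ^ e)) * (n : ℝ) ^ e * (1 / xx) ^ n ≤
        2 / 3 * c * (m0 / 3 ^ e) * (n : ℝ) ^ e * (1 / xx) ^ n := by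
      gcongr
      exact min_le_right _ _
    refine h7.trans ?_
    have h8 : 2 / 3 * c * (m0 / 3 ^ e) * (n : ℝ) ^ e * (1 / xx) ^ n =
        2 / 3 * (c * ((n : ℝ) ^ e / 3 ^ e) * (1 / xx) ^ n * m0) := by ring
    rw [h8]
    linarith

/-- A polynomial upper bound transfers, with the corresponding lower bound of `P_n`. -/
theorem poly12 (h : ∃ C : ℝ, 0 < C ∧ ∀ n : ℕ, 1 ≤ n → (an n : ℝ) ≤ C * (n : ℝ) ^ C * mu ^ n) :
    ∃ C : ℝ, 0 < C ∧ ∀ x ∈ V, ∀ n : ℕ, 1 ≤ n → (a x n : ℝ) ≤ C * (n : ℝ) ^ C * muL x ^ n ∧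
      (n : ℝ) ^ (-C) / C ≤ P x n := by
  obtain ⟨C₀, hC₀, hup⟩ := h
  set C₁ : ℝ := max C₀ 1 with hC₁d
  have hC₁ : 1 ≤ C₁ := le_max_right _ _
  have hC₀₁ : C₀ ≤ C₁ := le_max_left _ _
  have hmu' := mu_pos
  have hx := xx_pos
  -- the correction factor
  set f : ℕ → ℝ := fun n => C₁ * ((n : ℝ) + 1) ^ C₁ with hf
  have hmono : Monotone f := by
    intro m n hmn
    have : (m : ℝ) ≤ n := by exact_mod_cast hmn
    simp only [hf]
    gcongr
  have hone : ∀ n, 1 ≤ f n := by
    intro n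
    have e1 : (1 : ℝ) ≤ ((n : ℝ) + 1) ^ C₁ := Real.one_le_rpow (by linarith [Nat.cast_nonneg (α := ℝ) n]) (by linarith)
    simp only [hf]
    nlinarith
  have han0 : (an 0 : ℝ) ≤ 1 := by rw [an_zero]; norm_num
  have hbn : ∀ n, (an n : ℝ) ≤ mu ^ n * f n := by
    intro n
    rcases Nat.eq_zero_or_pos n with rfl | hn
    · rw [pow_zero, one_mul]; exact han0.trans (hone 0)
    · refine (hup n hn).trans ?_
      have hn1 : (1 : ℝ) ≤ n := by exact_mod_cast hn
      have e1 : (n : ℝ) ^ C₀ ≤ ((n : ℝ) + 1) ^ C₁ :=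
        (Real.rpow_le_rpow (by positivity) (by linarith) hC₀.le).trans
          (Real.rpow_le_rpow_of_exponent_le (by linarith) hC₀₁)
      simp only [hf]
      calc C₀ * (n : ℝ) ^ C₀ * mu ^ n ≤ C₁ * ((n : ℝ) + 1) ^ C₁ * mu ^ n := by gcongr
        _ = _ := by ring
  have hb := bn_up_gen f hmono hone hbn
  -- the final constant
  set D : ℝ := 216 * (C₁ * 2 ^ C₁) with hD
  have hD1 : 1 ≤ D := by
    have e1 : (1 : ℝ) ≤ 2 ^ C₁ := Real.one_le_rpow (by norm_num) (by linarith)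
    rw [hD]; nlinarith
  have hb2 : ∀ n : ℕ, 1 ≤ n → (bn n : ℝ) ≤ D * (n : ℝ) ^ C₁ * (1 / xx) ^ n := by
    intro n hn
    have hn1 : (1 : ℝ) ≤ n := by exact_mod_cast hn
    refine (hb n).trans ?_
    have e1 : ((n : ℝ) + 1) ^ C₁ ≤ 2 ^ C₁ * (n : ℝ) ^ C₁ := by
      rw [← Real.mul_rpow (by norm_num) (by positivity)]
      exact Real.rpow_le_rpow (by positivity) (by linarith) (by linarith)
    have e2 : 0 < (1 / xx) ^ n := by positivity
    simp only [hf, hD]
    calc 216 * ((1 / xx) ^ n * (C₁ * ((n : ℝ) + 1) ^ C₁)) ≤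
          216 * ((1 / xx) ^ n * (C₁ * (2 ^ C₁ * (n : ℝ) ^ C₁))) := by gcongr
      _ = _ := by ring
  set C : ℝ := max (D ^ 2) (2 * C₁) with hC
  have hCD : D ^ 2 ≤ C := le_max_left _ _
  have hCC : 2 * C₁ ≤ C := le_max_right _ _
  have hC0 : 0 < C := by linarith
  have hDC : D ≤ C := by nlinarith
  refine ⟨C, hC0, fun x hxV n hn => ?_⟩
  have hn1 : (1 : ℝ) ≤ n := by exact_mod_cast hn
  have hn0 : (0 : ℝ) < n := by linarith
  rw [muL_eq' hxV, a_eq_bn hxV, P_eq12 hxV]
  constructor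
  · refine (hb2 n hn).trans ?_
    have e1 : (n : ℝ) ^ C₁ ≤ (n : ℝ) ^ C := Real.rpow_le_rpow_of_exponent_le hn1 (by linarith)
    gcongr
  · have g1 := hb2 n hn
    have g2 := pow_le_bn (2 * n) (by omega)
    have g3 := bn_pos n
    have g4 : 0 < (1 / xx) ^ n := by positivity
    rw [div_le_div_iff₀ hC0 (by positivity)]
    have g5 : (bn n : ℝ) ^ 2 ≤ (D * (n : ℝ) ^ C₁ * (1 / xx) ^ n) ^ 2 := pow_le_pow_left₀ g3.le g1 2
    have g6 : ((n : ℝ) ^ C₁) ^ 2 = (n : ℝ) ^ (2 * C₁) := by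
      rw [← Real.rpow_natCast, ← Real.rpow_mul hn0.le]; congr 1; push_cast; ring
    have g7 : (n : ℝ) ^ (-C) * (n : ℝ) ^ (2 * C₁) ≤ 1 := by
      rw [← Real.rpow_add hn0]
      exact Real.rpow_le_one_of_one_le_of_nonpos hn1 (by linarith)
    calc (n : ℝ) ^ (-C) * (bn n : ℝ) ^ 2 ≤ (n : ℝ) ^ (-C) * (D * (n : ℝ) ^ C₁ * (1 / xx) ^ n) ^ 2 := by gcongr
      _ = D ^ 2 * ((n : ℝ) ^ (-C) * (n : ℝ) ^ (2 * C₁)) * ((1 / xx) ^ n) ^ 2 := by
          rw [mul_pow, mul_pow, g6]; ring
      _ ≤ C * 1 * ((1 / xx) ^ n) ^ 2 := by gcongr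
      _ = (1 / xx) ^ (2 * n) * C := by rw [← pow_mul, mul_comm n 2]; ring
      _ ≤ bn (2 * n) * C := by gcongr

end Pool.Agent.Hhelper64.T12
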