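import Pool.Agent.Hhelper14.SAW.Defs

/-!
The lattice `(3,12^2)` in the complex plane and its self-avoiding paths.
-/

namespace Pool.Agent.Hhelper64.ThreeTwelve

open Pool.Agent.Hhelper14

/-- Vertex set of the lattice `(3,12^2)`: the two points at distance `2 - √3` from the ends of each edge of
the honeycomb lattice (with edges of length `1`). -/
def V : Set ℂ := {z | ∃ v ∈ Honeycomb.V, ∃ w ∈ Honeycomb.V, dist v w = 1 ∧ z = v + (2 - Real.sqrt 3) * (w - v)}

/-- The common length `2√3 - 3` of the edges of the lattice `(3,12^2)`. -/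
noncomputable def len : ℝ := 2 * Real.sqrt 3 - 3

/-- Self-avoiding paths `(w 0, ..., w n)` of length `n` from the vertex `x`; two vertices are adjacent when
they are at Euclidean distance `len`. -/
def Omega (x : ℂ) (n : ℕ) : Set (Fin (n + 1) → ℂ) :=
  {w | w 0 = x ∧ (∀ i, w i ∈ V) ∧ (∀ i : Fin n, dist (w i.castSucc) (w i.succ) = len) ∧ Function.Injective w}

/-- The number `a_n` of self-avoiding paths of length `n` from `x`. -/
noncomputable def a (x : ℂ) (n : ℕ) : ℕ := (Omega x n).ncard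

/-- The connective constant `μ_L = inf_{n ≥ 1} a_n^{1/n}`. -/
noncomputable def muL (x : ℂ) : ℝ := ⨅ n : {n : ℕ // 1 ≤ n}, (a x n : ℝ) ^ (1 / (n : ℝ))

/-- The pairs of paths of length `n` with `w{1,...,n} ∩ w'{0,...,n} = ∅`. -/
def Pairs (x : ℂ) (n : ℕ) : Set ((Fin (n + 1) → ℂ) × (Fin (n + 1) → ℂ)) :=
  {q | q.1 ∈ Omega x n ∧ q.2 ∈ Omega x n ∧ ∀ i j : Fin (n + 1), i ≠ 0 → q.1 i ≠ q.2 j}

/-- The probability that `w{1,...,n}` and `w'{0,...,n}` are disjoint for independent uniform `w, w'`. -/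
noncomputable def P (x : ℂ) (n : ℕ) : ℝ := ((Pairs x n).ncard : ℝ) / (a x n : ℝ) ^ 2

end Pool.Agent.Hhelper64.ThreeTwelve
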