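import Pool.Agent.Hhelper64.T12.Dart
import Pool.Agent.Hhelper64.T12.Defs

/-!
The embedding of darts in the plane.
-/

namespace Pool.Agent.Hhelper64.T12

open Pool.Agent.Hhelper14.SAW Pool.Agent.Hhelper64.ThreeTwelve

/-- The parameter `2 - √3`. -/
noncomputable def tt : ℝ := 2 - Real.sqrt 3

lemma tt_sq : tt ^ 2 = 4 * tt - 1 := by
  have h3 : Real.sqrt 3 * Real.sqrt 3 = 3 := Real.mul_self_sqrt (by norm_num)
  unfold tt
  nlinarith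

lemma tt_ind {a b : ℤ} (h : (a : ℝ) + b * tt = 0) : a = 0 ∧ b = 0 := by
  have hirr : Irrational (Real.sqrt 3) := by
    have := Nat.Prime.irrational_sqrt (p := 3) (by norm_num)
    exact_mod_cast this
  by_cases hb : b = 0
  · subst hb
    simp only [Int.cast_zero, zero_mul, add_zero, Int.cast_eq_zero] at h
    exact ⟨h, rfl⟩
  · exfalso
    apply hirr
    refine ⟨(a + 2 * b : ℤ) / (b : ℤ), ?_⟩
    have hb' : (b : ℝ) ≠ 0 := by exact_mod_cast hb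
    push_cast
    rw [div_eq_iff hb']
    unfold tt at h
    linarith

/-- The embedding of darts. -/
noncomputable def em (d : Dt) : ℂ := emb d.1 + (2 - Real.sqrt 3) * (emb d.2 - emb d.1)

lemma em_sub (d e : Dt) : em d - em e = emb (d.1 - e.1) + (tt : ℂ) * emb ((d.2 - d.1) - (e.2 - e.1)) := by
  unfold em tt
  rw [← emb_sub, ← emb_sub, ← emb_sub, ← emb_sub]
  push_cast
  ring

lemma normSq_comb (x y : ℤ × ℤ) : Complex.normSq (emb x + (tt : ℂ) * emb y) =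
    ((x.1 ^ 2 + x.1 * x.2 + x.2 ^ 2 - (y.1 ^ 2 + y.1 * y.2 + y.2 ^ 2) : ℤ) : ℝ) +
    ((2 * x.1 * y.1 + x.1 * y.2 + x.2 * y.1 + 2 * x.2 * y.2 + 4 * (y.1 ^ 2 + y.1 * y.2 + y.2 ^ 2) : ℤ) : ℝ) * tt := by
  unfold emb
  rw [Complex.normSq_apply]
  simp only [Complex.add_re, Complex.add_im, Complex.mul_re, Complex.mul_im, Complex.intCast_re,
    Complex.intCast_im, omega_re, omega_im, Complex.ofReal_re, Complex.ofReal_im]
  have h3 : Real.sqrt 3 * Real.sqrt 3 = 3 := Real.mul_self_sqrt (by norm_num)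
  have ht := tt_sq
  push_cast
  have e : ∀ s X1 X2 Y1 Y2 t : ℝ, s * s = 3 → t ^ 2 = 4 * t - 1 →
      (X1 + (X2 * (1 / 2) - 0 * (s / 2)) + (t * (Y1 + (Y2 * (1 / 2) - 0 * (s / 2))) - 0 * (0 + (Y2 * (s / 2) + 0 * (1 / 2))))) *
      (X1 + (X2 * (1 / 2) - 0 * (s / 2)) + (t * (Y1 + (Y2 * (1 / 2) - 0 * (s / 2))) - 0 * (0 + (Y2 * (s / 2) + 0 * (1 / 2))))) +
      (0 + (X2 * (s / 2) + 0 * (1 / 2)) + (t * (0 + (Y2 * (s / 2) + 0 * (1 / 2))) + 0 * (Y1 + (Y2 * (1 / 2) - 0 * (s / 2))))) *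
      (0 + (X2 * (s / 2) + 0 * (1 / 2)) + (t * (0 + (Y2 * (s / 2) + 0 * (1 / 2))) + 0 * (Y1 + (Y2 * (1 / 2) - 0 * (s / 2))))) =
      X1 ^ 2 + X1 * X2 + X2 ^ 2 - (Y1 ^ 2 + Y1 * Y2 + Y2 ^ 2) +
      (2 * X1 * Y1 + X1 * Y2 + X2 * Y1 + 2 * X2 * Y2 + 4 * (Y1 ^ 2 + Y1 * Y2 + Y2 ^ 2)) * t := by
    intro s X1 X2 Y1 Y2 t hs ht
    linear_combination (X2 ^ 2 / 4 + X2 * t * Y2 / 2 + t ^ 2 * Y2 ^ 2 / 4) * hs +
      (Y1 ^ 2 + Y1 * Y2 + Y2 ^ 2) * ht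
  exact e _ _ _ _ _ _ h3 ht

lemma em_inj : Function.Injective em := by
  intro d e h
  have h1 : em d - em e = 0 := by rw [h, sub_self]
  rw [em_sub] at h1
  set x := d.1 - e.1 with hx
  set y := (d.2 - d.1) - (e.2 - e.1) with hy
  have him := congrArg Complex.im h1
  have hre := congrArg Complex.re h1
  simp only [emb, Complex.add_re, Complex.add_im, Complex.mul_re, Complex.mul_im, Complex.intCast_re,
    Complex.intCast_im, omega_re, omega_im, Complex.ofReal_re, Complex.ofReal_im, Complex.zero_re,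
    Complex.zero_im] at him hre
  have h3 : (0 : ℝ) < Real.sqrt 3 := by positivity
  have e1 : (x.2 : ℝ) + y.2 * tt = 0 := by
    have : ((x.2 : ℝ) + y.2 * tt) * (Real.sqrt 3 / 2) = 0 := by linarith
    rcases mul_eq_zero.1 this with h | h
    · exact h
    · exfalso; linarith
  have e2 : (x.1 : ℝ) + y.1 * tt = 0 := by linarith
  obtain ⟨a1, a2⟩ := tt_ind e1
  obtain ⟨a3, a4⟩ := tt_ind e2
  simp only [hx, hy, Prod.fst_sub, Prod.snd_sub] at a1 a2 a3 a4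
  ext <;> omega

lemma len_sq : len ^ 2 = 12 * tt - 3 := by
  have h3 : Real.sqrt 3 * Real.sqrt 3 = 3 := Real.mul_self_sqrt (by norm_num)
  unfold len tt
  nlinarith

lemma len_pos : 0 < len := by
  have h3 : Real.sqrt 3 * Real.sqrt 3 = 3 := Real.mul_self_sqrt (by norm_num)
  have h4 : 0 < Real.sqrt 3 := by positivity
  unfold len
  nlinarith

lemma dist_len_iff (d e : Dt) : dist (em d) (em e) = len ↔
    ((d.1 - e.1).1 ^ 2 + (d.1 - e.1).1 * (d.1 - e.1).2 + (d.1 - e.1).2 ^ 2 + 3 =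
      ((d.2 - d.1) - (e.2 - e.1)).1 ^ 2 + ((d.2 - d.1) - (e.2 - e.1)).1 * ((d.2 - d.1) - (e.2 - e.1)).2 +
        ((d.2 - d.1) - (e.2 - e.1)).2 ^ 2 ∧
    2 * (d.1 - e.1).1 * ((d.2 - d.1) - (e.2 - e.1)).1 + (d.1 - e.1).1 * ((d.2 - d.1) - (e.2 - e.1)).2 +
      (d.1 - e.1).2 * ((d.2 - d.1) - (e.2 - e.1)).1 + 2 * (d.1 - e.1).2 * ((d.2 - d.1) - (e.2 - e.1)).2 +
      4 * (((d.2 - d.1) - (e.2 - e.1)).1 ^ 2 + ((d.2 - d.1) - (e.2 - e.1)).1 * ((d.2 - d.1) - (e.2 - e.1)).2 +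
        ((d.2 - d.1) - (e.2 - e.1)).2 ^ 2) = 12) := by
  have h1 : dist (em d) (em e) = len ↔ Complex.normSq (em d - em e) = 12 * tt - 3 := by
    rw [Complex.dist_eq, Complex.normSq_eq_norm_sq, ← len_sq]
    constructor
    · intro h; rw [h]
    · intro h
      exact (sq_eq_sq₀ (norm_nonneg _) len_pos.le).1 h
  rw [h1, em_sub, normSq_comb]
  generalize d.1 - e.1 = x
  generalize (d.2 - d.1) - (e.2 - e.1) = y
  constructor
  · intro h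
    have h2 := tt_ind (a := x.1 ^ 2 + x.1 * x.2 + x.2 ^ 2 - (y.1 ^ 2 + y.1 * y.2 + y.2 ^ 2) + 3)
      (b := 2 * x.1 * y.1 + x.1 * y.2 + x.2 * y.1 + 2 * x.2 * y.2 + 4 * (y.1 ^ 2 + y.1 * y.2 + y.2 ^ 2) - 12)
      (by push_cast at h ⊢; linarith)
    obtain ⟨h3, h4⟩ := h2
    constructor <;> linarith
  · rintro ⟨h3, h4⟩
    have h3' : x.1 ^ 2 + x.1 * x.2 + x.2 ^ 2 - (y.1 ^ 2 + y.1 * y.2 + y.2 ^ 2) = -3 := by linarith
    rw [h3', h4]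
    push_cast; ring

lemma nn_nonneg (x : ℤ × ℤ) : 0 ≤ x.1 ^ 2 + x.1 * x.2 + x.2 ^ 2 := by
  nlinarith [sq_nonneg (2 * x.1 + x.2), sq_nonneg x.2]

lemma nn_zero {x : ℤ × ℤ} (h : x.1 ^ 2 + x.1 * x.2 + x.2 ^ 2 = 0) : x.1 = 0 ∧ x.2 = 0 := by
  have hb : x.2 = 0 := by nlinarith [sq_nonneg (2 * x.1 + x.2), sq_nonneg x.2]
  refine ⟨?_, hb⟩
  rw [hb] at h
  nlinarith

lemma solve_len {x u u' : ℤ × ℤ} (hu : U u) (hu' : U u')
    (h1 : x.1 ^ 2 + x.1 * x.2 + x.2 ^ 2 + 3 =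
      (u - u').1 ^ 2 + (u - u').1 * (u - u').2 + (u - u').2 ^ 2)
    (h2 : 2 * x.1 * (u - u').1 + x.1 * (u - u').2 + x.2 * (u - u').1 + 2 * x.2 * (u - u').2 +
      4 * ((u - u').1 ^ 2 + (u - u').1 * (u - u').2 + (u - u').2 ^ 2) = 12) :
    (x = 0 ∧ u ≠ u') ∨ (x = -u ∧ u' = -u) := by
  have h0 := nn_nonneg x
  obtain ⟨x1, x2⟩ := x
  obtain ⟨u1, u2⟩ := u
  obtain ⟨w1, w2⟩ := u'
  simp only [U, Prod.mk_sub_mk, ne_eq, Prod.mk.injEq, Prod.neg_mk, Prod.mk_eq_zero] at *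
  have key : x1 ^ 2 + x1 * x2 + x2 ^ 2 = 0 ∨ x1 ^ 2 + x1 * x2 + x2 ^ 2 = 1 := by
    clear h2
    generalize x1 ^ 2 + x1 * x2 + x2 ^ 2 = N at *
    rcases hu with ⟨rfl, rfl⟩ | ⟨rfl, rfl⟩ | ⟨rfl, rfl⟩ | ⟨rfl, rfl⟩ | ⟨rfl, rfl⟩ | ⟨rfl, rfl⟩ <;>
    rcases hu' with ⟨rfl, rfl⟩ | ⟨rfl, rfl⟩ | ⟨rfl, rfl⟩ | ⟨rfl, rfl⟩ | ⟨rfl, rfl⟩ | ⟨rfl, rfl⟩ <;>
    (try (norm_num at h1)) <;> omega
  rcases key with key | key
  · left
    have := nn_zero (x := (x1, x2)) key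
    simp only at this
    refine ⟨this, ?_⟩
    rintro ⟨rfl, rfl⟩
    norm_num at h1
    omega
  · have hx : U (x1, x2) := (U_iff _).2 key
    simp only [U] at hx
    rcases hu with ⟨rfl, rfl⟩ | ⟨rfl, rfl⟩ | ⟨rfl, rfl⟩ | ⟨rfl, rfl⟩ | ⟨rfl, rfl⟩ | ⟨rfl, rfl⟩ <;>
    rcases hu' with ⟨rfl, rfl⟩ | ⟨rfl, rfl⟩ | ⟨rfl, rfl⟩ | ⟨rfl, rfl⟩ | ⟨rfl, rfl⟩ | ⟨rfl, rfl⟩ <;>
    rcases hx with ⟨rfl, rfl⟩ | ⟨rfl, rfl⟩ | ⟨rfl, rfl⟩ | ⟨rfl, rfl⟩ | ⟨rfl, rfl⟩ | ⟨rfl, rfl⟩ <;>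
    first
    | (exfalso; norm_num at h2; done)
    | (exfalso; norm_num at h1; done)
    | norm_num

lemma nbr_norm {v w w' : ℤ × ℤ} (h : Adj v w) (h' : Adj v w') (hne : w ≠ w') :
    ((w - v) - (w' - v)).1 ^ 2 + ((w - v) - (w' - v)).1 * ((w - v) - (w' - v)).2 +
      ((w - v) - (w' - v)).2 ^ 2 = 3 := by
  obtain ⟨v1, v2⟩ := v
  obtain ⟨w1, w2⟩ := w
  obtain ⟨y1, y2⟩ := w'
  obtain ⟨h1, h2, h3⟩ := h
  obtain ⟨-, h5, h6⟩ := h'
  simp only [hon, U, Prod.mk_sub_mk, Prod.mk.injEq, ne_eq] at *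
  have key : ∀ a b : ℤ, (a = 1 ∧ b = 1) ∨ (a = 2 ∧ b = -1) ∨ (a = 1 ∧ b = -2) ∨ (a = -1 ∧ b = -1) ∨
      (a = -2 ∧ b = 1) ∨ (a = -1 ∧ b = 2) → a ^ 2 + a * b + b ^ 2 = 3 := by
    rintro a b (⟨rfl, rfl⟩ | ⟨rfl, rfl⟩ | ⟨rfl, rfl⟩ | ⟨rfl, rfl⟩ | ⟨rfl, rfl⟩ | ⟨rfl, rfl⟩) <;> norm_num
  apply key
  rcases h3 with h3 | h3 | h3 | h3 | h3 | h3 <;> rcases h6 with h6 | h6 | h6 | h6 | h6 | h6 <;> omega

theorem dist_em {d e : Dt} (hd : IsD d) (he : IsD e) : dist (em d) (em e) = len ↔ LR d e := by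
  rw [dist_len_iff]
  constructor
  · rintro ⟨h1, h2⟩
    refine ⟨hd, he, ?_⟩
    rcases solve_len hd.symm.2.2 he.symm.2.2 h1 h2 with ⟨h3, h4⟩ | ⟨h3, h4⟩
    · right
      have h5 : d.1 = e.1 := sub_eq_zero.1 h3
      refine ⟨h5, fun h6 => h4 ?_⟩
      rw [h5, h6]
    · left
      have h5 : e.1 = d.2 := by
        have : e.1 = d.1 - (d.1 - e.1) := by ring
        rw [this, h3]; ring
      refine ⟨?_, h5.symm⟩
      have : e.2 = e.1 + (e.2 - e.1) := by ring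
      rw [this, h4, h5]; ring
  · rintro ⟨-, -, h3⟩
    rcases h3 with ⟨h3, h4⟩ | ⟨h3, h4⟩
    · have hu := (U_iff _).1 hd.2.2
      obtain ⟨v, w⟩ := d
      obtain ⟨v', w'⟩ := e
      simp only at h3 h4 hu
      subst h3; subst h4
      constructor
      · simp only [Prod.fst_sub, Prod.snd_sub] at hu ⊢
        linear_combination (-3 : ℤ) * hu
      · simp only [Prod.fst_sub, Prod.snd_sub] at hu ⊢
        linear_combination (12 : ℤ) * hu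
    · obtain ⟨v, w⟩ := d
      obtain ⟨v', w'⟩ := e
      simp only at h3 h4
      subst h3
      have hn := nbr_norm hd he h4
      simp only
      rw [hn]
      simp

lemma mem_V12 {z : ℂ} : z ∈ V ↔ ∃ d : Dt, IsD d ∧ z = em d := by
  constructor
  · rintro ⟨v, hv, w, hw, h1, h2⟩
    obtain ⟨x, hx, rfl⟩ := mem_V.1 hv
    obtain ⟨y, hy, rfl⟩ := mem_V.1 hw
    exact ⟨(x, y), ⟨hx, hy, (dist_emb _ _).1 h1⟩, h2⟩
  · rintro ⟨⟨x, y⟩, ⟨h1, h2, h3⟩, h4⟩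
    exact ⟨emb x, mem_V.2 ⟨x, h1, rfl⟩, emb y, mem_V.2 ⟨y, h2, rfl⟩, (dist_emb _ _).2 h3, h4⟩

lemma em_mem {d : Dt} (hd : IsD d) : em d ∈ V := mem_V12.2 ⟨d, hd, rfl⟩

lemma Omega_eq {d : Dt} (hd : IsD d) (n : ℕ) : Omega (em d) n = (fun w i => em (w i)) '' SF LR d n := by
  ext w
  constructor
  · rintro ⟨h0, h1, h2, h3⟩
    choose z hz1 hz2 using fun i => mem_V12.1 (h1 i)
    have hw : (fun i => em (z i)) = w := by funext i; exact (hz2 i).symm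
    refine ⟨z, ⟨?_, ?_, ?_⟩, hw⟩
    · apply em_inj
      rw [← hz2, h0]
    · intro i
      have := h2 i
      rw [hz2, hz2, dist_em (hz1 _) (hz1 _)] at this
      exact this.symm
    · intro i j hij
      apply h3
      rw [hz2, hz2, hij]
  · rintro ⟨z, ⟨h0, h1, h2⟩, rfl⟩
    have hz : ∀ i, IsD (z i) := SF_mem homog (y := d) hd ⟨h0, h1, h2⟩
    refine ⟨by simp only [h0], fun i => em_mem (hz i), fun i => ?_, fun i j hij => h2 (em_inj hij)⟩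
    exact (dist_em (hz _) (hz _)).2 (h1 i).symm

lemma comp_em_inj (n : ℕ) : Function.Injective (fun (w : Fin (n + 1) → Dt) i => em (w i)) := by
  intro w w' h
  funext i
  exact em_inj (congrFun h i)

theorem a_eq {d : Dt} (hd : IsD d) (n : ℕ) : a (em d) n = (SF LR d n).ncard := by
  unfold a
  rw [Omega_eq hd, Set.ncard_image_of_injective _ (comp_em_inj n)]

theorem pairs_eq {d : Dt} (hd : IsD d) (n : ℕ) : (Pairs (em d) n).ncard = (PairsG LR d n).ncard := by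
  have : Pairs (em d) n = (Prod.map (fun (w : Fin (n + 1) → Dt) i => em (w i))
      (fun (w : Fin (n + 1) → Dt) i => em (w i))) '' PairsG LR d n := by
    ext ⟨w, w'⟩
    constructor
    · rintro ⟨h1, h2, h3⟩
      simp only at h1 h2 h3
      rw [Omega_eq hd] at h1 h2
      obtain ⟨z, hz, rfl⟩ := h1
      obtain ⟨z', hz', rfl⟩ := h2
      exact ⟨(z, z'), ⟨hz, hz', fun i j hi hij => h3 i j hi (congrArg em hij)⟩, rfl⟩
    · rintro ⟨⟨z, z'⟩, ⟨h1, h2, h3⟩, h4⟩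
      simp only [Prod.map_apply, Prod.mk.injEq] at h4
      obtain ⟨rfl, rfl⟩ := h4
      refine ⟨?_, ?_, fun i j hi hij => h3 i j hi (em_inj hij)⟩
      · rw [Omega_eq hd]; exact ⟨z, h1, rfl⟩
      · rw [Omega_eq hd]; exact ⟨z', h2, rfl⟩
  rw [this, Set.ncard_image_of_injective]
  exact (comp_em_inj n).prodMap (comp_em_inj n)

/-- The number of walks from the base dart. -/
noncomputable def bn (n : ℕ) : ℕ := (SF LR d0 n).ncard

theorem a_eq_bn {x : ℂ} (hx : x ∈ V) (n : ℕ) : a x n = bn n := by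
  obtain ⟨d, hd, rfl⟩ := mem_V12.1 hx
  rw [a_eq hd]
  exact SF_base homog hd n

theorem pairs_le_bn {x : ℂ} (hx : x ∈ V) (n : ℕ) : (Pairs x n).ncard ≤ bn (2 * n) := by
  obtain ⟨d, hd, rfl⟩ := mem_V12.1 hx
  rw [pairs_eq hd]
  refine le_trans ?_ (pairs_le homog n)
  -- move the start to the base dart
  refine Set.ncard_le_ncard_of_injOn
    (Prod.map (fun (w : Fin (n + 1) → Dt) i => mv d (w i)) (fun (w : Fin (n + 1) → Dt) i => mv d (w i)))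
    ?_ ?_ (PairsG_finite LR_finite d0 n)
  · rintro ⟨w, w'⟩ ⟨h1, h2, h3⟩
    simp only at h1 h2 h3
    refine ⟨⟨?_, fun i => mv_LR hd (h1.2.1 i), (mv_inj hd).comp h1.2.2⟩,
      ⟨?_, fun i => mv_LR hd (h2.2.1 i), (mv_inj hd).comp h2.2.2⟩, fun i j hi hij => h3 i j hi (mv_inj hd hij)⟩
    · simp only [Prod.map_apply, h1.1]; exact homog.move d hd
    · simp only [Prod.map_apply, h2.1]; exact homog.move d hd
  · have hinj : Function.Injective (fun (w : Fin (n + 1) → Dt) i => mv d (w i)) := by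
      intro w w' h
      funext i
      exact mv_inj hd (congrFun h i)
    exact (hinj.prodMap hinj).injOn

theorem bn_submul (n m : ℕ) : bn (n + m) ≤ bn n * bn m := SF_submul homog n m

end Pool.Agent.Hhelper64.T12
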