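import Pool.Agent.Hhelper64.T12.Up
import Pool.Agent.Hhelper64.T12.Plane

/-!
Counting the walks of the lattice `(3,12^2)` by honeycomb walks and compositions.
-/

namespace Pool.Agent.Hhelper64.T12

open Pool.Agent.Hhelper14.SAW Finset

/-- Codes: lists of length `k` and weight `n`. -/
def CS : ℕ → ℕ → Finset (List Bool)
  | 0, n => if n = 0 then {[]} else ∅
  | k + 1, n => (if 2 ≤ n then (CS k (n - 2)).image (List.cons false) else ∅) ∪
      (if 3 ≤ n then (CS k (n - 3)).image (List.cons true) else ∅)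

lemma mem_CS : ∀ (k n : ℕ) (cs : List Bool), cs ∈ CS k n ↔ cs.length = k ∧ wt cs = n
  | 0, n, cs => by
    unfold CS
    by_cases hn : n = 0
    · rw [if_pos hn, mem_singleton]
      constructor
      · rintro rfl; exact ⟨rfl, hn.symm⟩
      · rintro ⟨h, -⟩; exact List.length_eq_zero_iff.1 h
    · rw [if_neg hn]
      constructor
      · intro h; simp at h
      · rintro ⟨h, h'⟩
        have := List.length_eq_zero_iff.1 h
        subst this
        exact absurd h'.symm hn
  | k + 1, n, cs => by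
    unfold CS
    rw [mem_union]
    constructor
    · rintro (h | h)
      · split_ifs at h with h2
        · obtain ⟨c, h3, rfl⟩ := mem_image.1 h
          obtain ⟨h4, h5⟩ := (mem_CS k _ c).1 h3
          refine ⟨by simp [h4], ?_⟩
          rw [wt_cons, h5]; simp; omega
        · simp at h
      · split_ifs at h with h2
        · obtain ⟨c, h3, rfl⟩ := mem_image.1 h
          obtain ⟨h4, h5⟩ := (mem_CS k _ c).1 h3
          refine ⟨by simp [h4], ?_⟩
          rw [wt_cons, h5]; simp; omega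
        · simp at h
    · rintro ⟨h1, h2⟩
      cases cs with
      | nil => simp at h1
      | cons c cs =>
        rw [wt_cons] at h2
        have h1' : cs.length = k := by simpa using h1
        cases c
        · left
          simp only [Bool.false_eq_true, if_false] at h2
          rw [if_pos (by omega)]
          exact mem_image.2 ⟨cs, (mem_CS k _ cs).2 ⟨h1', by omega⟩, rfl⟩
        · right
          simp only [if_true] at h2
          rw [if_pos (by omega)]
          exact mem_image.2 ⟨cs, (mem_CS k _ cs).2 ⟨h1', by omega⟩, rfl⟩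

/-- The number of compositions of `n` into `k` parts equal to `2` or `3`. -/
def cnt (k n : ℕ) : ℕ := (CS k n).card

lemma cnt_zero (n : ℕ) : cnt 0 n = if n = 0 then 1 else 0 := by
  unfold cnt CS
  split_ifs <;> simp

lemma cnt_succ (k n : ℕ) : cnt (k + 1) n =
    (if 2 ≤ n then cnt k (n - 2) else 0) + (if 3 ≤ n then cnt k (n - 3) else 0) := by
  unfold cnt
  rw [CS, card_union_of_disjoint]
  · congr 1
    · split_ifs
      · exact card_image_of_injective _ (List.cons_injective)
      · simp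
    · split_ifs
      · exact card_image_of_injective _ (List.cons_injective)
      · simp
  · rw [disjoint_left]
    intro cs h1 h2
    split_ifs at h1 with h3
    · split_ifs at h2 with h4
      · obtain ⟨c, -, rfl⟩ := mem_image.1 h1
        obtain ⟨c', -, h5⟩ := mem_image.1 h2
        simp at h5
      · simp at h2
    · simp at h1

lemma cnt_eq_zero : ∀ (k n : ℕ), n < 2 * k ∨ 3 * k < n → cnt k n = 0
  | 0, n, h => by rw [cnt_zero, if_neg (by omega)]
  | k + 1, n, h => by
    rw [cnt_succ]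
    split_ifs with h1 h2 h2
    · rw [cnt_eq_zero k (n - 2) (by omega), cnt_eq_zero k (n - 3) (by omega)]
    · rw [cnt_eq_zero k (n - 2) (by omega)]
    · omega
    · rfl

/-- Honeycomb walks. -/
noncomputable def Wf (k : ℕ) : Finset (List (ℤ × ℤ)) := (walk_finite k).toFinset

lemma mem_Wf {k : ℕ} {H : List (ℤ × ℤ)} : H ∈ Wf k ↔ IsWalk k H := by
  unfold Wf; rw [Set.Finite.mem_toFinset]; rfl

lemma card_Wf (k : ℕ) : (Wf k).card = an k := by
  unfold Wf an
  rw [Set.ncard_eq_toFinset_card _ (walk_finite k)]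

open Classical in
/-- Honeycomb walks not starting with a step to `w`. -/
noncomputable def Ww (w : ℤ × ℤ) (k : ℕ) : Finset (List (ℤ × ℤ)) := (Wf k).filter (fun H => ¬ [w, o] <:+ H)

lemma nbw_of {w : ℤ × ℤ} : ∀ (H : List (ℤ × ℤ)), H.Nodup → H.getLast? = some o → ¬ [w, o] <:+ H → nbw w H
  | [], _, _, _ => trivial
  | [_], _, _, _ => trivial
  | [a, b], _, h2, h3 => by
    refine ⟨?_, trivial⟩
    rintro rfl
    simp only [List.getLast?_cons_cons, List.getLast?_singleton, Option.some.injEq] at h2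
    subst h2
    exact h3 (List.suffix_refl _)
  | a :: b :: e :: r, h1, h2, h3 => by
    refine ⟨?_, nbw_of (b :: e :: r) (List.nodup_cons.1 h1).2 ?_ fun h => h3 (h.trans (List.suffix_cons _ _))⟩
    · rintro rfl
      simp at h1
    · rw [List.getLast?_cons_cons] at h2; exact h2

lemma GW_fin (x : Dt) (n : ℕ) : {P | GW LR x n P}.Finite := GW_finite LR_finite x n

lemma lower_w {w : ℤ × ℤ} (hw : Adj o w) (n : ℕ) :
    ∑ k ∈ range (n + 1), (Ww w k).card * cnt k n ≤ bn n := by
  have h1 : bn n = (GW_fin (o, w) n).toFinset.card := by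
    unfold bn
    rw [← SF_base homog (y := (o, w)) hw n, ncard_SF, Set.ncard_eq_toFinset_card _ (GW_fin (o, w) n)]
  rw [h1]
  have h2 : ∑ k ∈ range (n + 1), (Ww w k).card * cnt k n =
      ((range (n + 1)).sigma (fun k => Ww w k ×ˢ CS k n)).card := by
    rw [card_sigma]
    refine sum_congr rfl fun k _ => ?_
    rw [card_product]; rfl
  rw [h2]
  have hmem : ∀ p ∈ (range (n + 1)).sigma (fun k => Ww w k ×ˢ CS k n),
      ∃ a r, p.2.1 = a :: r ∧ r.length = p.2.2.length ∧ HChain (a :: r) ∧ nbw w (a :: r) ∧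
        (a :: r).getLast? = some o ∧ (a :: r).Nodup ∧ wt p.2.2 = n ∧ p.2.2.length = p.1 := by
    rintro ⟨k, H, cs⟩ hp
    simp only [mem_sigma, mem_product, mem_range, Ww, mem_filter, mem_Wf, mem_CS] at hp
    obtain ⟨-, ⟨hH, hs⟩, hc1, hc2⟩ := hp
    obtain ⟨g1, g2, g3, g4⟩ := hH
    cases H with
    | nil => simp at g1
    | cons a r =>
      refine ⟨a, r, rfl, ?_, g3, nbw_of _ g2 g4 hs, g4, g2, hc2, hc1⟩
      simp only [List.length_cons] at g1
      simp only; omega
  refine card_le_card_of_injOn (fun p => dec w p.2.1 p.2.2) ?_ ?_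
  · intro p hp
    obtain ⟨a, r, e1, e2, e3, e4, e5, e6, e7, e8⟩ := hmem p hp
    simp only [Set.Finite.coe_toFinset, Set.mem_ofPred_eq]
    rw [e1]
    refine ⟨?_, dec_nodup w _ a r e2 e3 e4 o e5 hw e6, dec_chain w _ a r e2 e3 e4 o e5 hw,
      dec_last w _ a r e2 o e5⟩
    rw [dec_length w _ a r e2, e7]
  · intro p hp q hq heq
    obtain ⟨a, r, e1, e2, e3, e4, e5, e6, e7, e8⟩ := hmem p hp
    obtain ⟨a', r', f1, f2, f3, f4, f5, f6, f7, f8⟩ := hmem q hq
    simp only at heq
    rw [e1, f1] at heq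
    obtain ⟨g1, g2, g3⟩ := dec_inj w _ _ a a' r r' e2 f2 e3 f3 heq
    obtain ⟨k, H, cs⟩ := p
    obtain ⟨k', H', cs'⟩ := q
    simp only at *
    subst e1; subst f1; subst g1; subst g2; subst g3
    have : k = k' := by omega
    subst this
    rfl

lemma suffix_two {w w' : ℤ × ℤ} {H : List (ℤ × ℤ)} (h : [w, o] <:+ H) (h' : [w', o] <:+ H) : w = w' := by
  rw [List.suffix_iff_eq_drop] at h h'
  have : [w, o] = [w', o] := by
    rw [h, h']; rfl
  simpa using this

lemma adj_w1 : Adj o (0, 1) := ⟨by decide, by decide, by decide⟩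
lemma adj_w2 : Adj o (-1, 0) := ⟨by decide, by decide, by decide⟩
lemma adj_w3 : Adj o (1, -1) := ⟨by decide, by decide, by decide⟩

lemma three_Ww (k : ℕ) : 2 * an k ≤ (Ww (0, 1) k).card + (Ww (-1, 0) k).card + (Ww (1, -1) k).card := by
  classical
  unfold Ww
  rw [card_filter, card_filter, card_filter, ← sum_add_distrib, ← sum_add_distrib, ← card_Wf, mul_comm,
    ← smul_eq_mul, ← sum_const]
  refine sum_le_sum fun H _ => ?_
  have a1 : ¬ ([((0 : ℤ), (1 : ℤ)), o] <:+ H ∧ [((-1 : ℤ), (0 : ℤ)), o] <:+ H) := fun h => by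
    have := suffix_two h.1 h.2
    simp at this
  have a2 : ¬ ([((0 : ℤ), (1 : ℤ)), o] <:+ H ∧ [((1 : ℤ), (-1 : ℤ)), o] <:+ H) := fun h => by
    have := suffix_two h.1 h.2
    simp at this
  have a3 : ¬ ([((-1 : ℤ), (0 : ℤ)), o] <:+ H ∧ [((1 : ℤ), (-1 : ℤ)), o] <:+ H) := fun h => by
    have := suffix_two h.1 h.2
    simp at this
  by_cases h1 : [((0 : ℤ), (1 : ℤ)), o] <:+ H <;> by_cases h2 : [((-1 : ℤ), (0 : ℤ)), o] <:+ H <;>
    by_cases h3 : [((1 : ℤ), (-1 : ℤ)), o] <:+ H <;> simp_all

/-- Lower bound. -/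
theorem lower (n : ℕ) : 2 * ∑ k ∈ range (n + 1), an k * cnt k n ≤ 3 * bn n := by
  have h1 := lower_w adj_w1 n
  have h2 := lower_w adj_w2 n
  have h3 := lower_w adj_w3 n
  have h4 : 2 * ∑ k ∈ range (n + 1), an k * cnt k n ≤
      ∑ k ∈ range (n + 1), ((Ww (0, 1) k).card + (Ww (-1, 0) k).card + (Ww (1, -1) k).card) * cnt k n := by
    rw [mul_sum]
    refine sum_le_sum fun k _ => ?_
    rw [← mul_assoc]
    exact Nat.mul_le_mul_right _ (three_Ww k)
  have h5 : ∑ k ∈ range (n + 1), ((Ww (0, 1) k).card + (Ww (-1, 0) k).card + (Ww (1, -1) k).card) * cnt k n =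
      ∑ k ∈ range (n + 1), (Ww (0, 1) k).card * cnt k n + ∑ k ∈ range (n + 1), (Ww (-1, 0) k).card * cnt k n +
      ∑ k ∈ range (n + 1), (Ww (1, -1) k).card * cnt k n := by
    rw [← sum_add_distrib, ← sum_add_distrib]
    refine sum_congr rfl fun k _ => by ring
  omega

end Pool.Agent.Hhelper64.T12
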