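import Pool.Agent.Hhelper64.T12.Cnt

/-!
Upper bound for the number of walks of the lattice `(3,12^2)`.
-/

namespace Pool.Agent.Hhelper64.T12

open Pool.Agent.Hhelper14.SAW Finset

/-- The six unit vectors. -/
def Uf : Finset (ℤ × ℤ) := {(1, 0), (0, 1), (-1, 1), (-1, 0), (0, -1), (1, -1)}

lemma mem_Uf {z : ℤ × ℤ} : z ∈ Uf ↔ U z := by
  obtain ⟨a, b⟩ := z
  simp only [Uf, U, mem_insert, mem_singleton, Prod.mk.injEq]

lemma card_Uf : Uf.card = 6 := by decide

/-- Walks whose last vertex may be arbitrary. -/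
noncomputable def NWf : ℕ → Finset (List (ℤ × ℤ))
  | 0 => {[o]}
  | k + 1 => (Wf k ×ˢ Uf).image (fun p => (p.1.headI + p.2) :: p.1)

/-- Bound for their number. -/
noncomputable def nw : ℕ → ℕ
  | 0 => 1
  | k + 1 => 6 * an k

lemma card_NWf (k : ℕ) : (NWf k).card ≤ nw k := by
  cases k with
  | zero => simp [NWf, nw]
  | succ k =>
    unfold NWf nw
    refine card_image_le.trans ?_
    rw [card_product, card_Wf, card_Uf, mul_comm]

lemma mem_NWf {a : ℤ × ℤ} {r : List (ℤ × ℤ)} (h1 : HChain (a :: r)) (h2 : (a :: r).getLast? = some o)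
    (h3 : r.Nodup) : a :: r ∈ NWf r.length := by
  cases r with
  | nil =>
    simp only [List.getLast?_singleton, Option.some.injEq] at h2
    subst h2
    simp [NWf]
  | cons b r =>
    rw [List.getLast?_cons_cons] at h2
    obtain ⟨h4, h5⟩ := List.isChain_cons_cons.1 h1
    rw [List.length_cons, NWf]
    refine mem_image.2 ⟨(b :: r, a - b), mem_product.2 ⟨mem_Wf.2 ⟨rfl, h3, h5, h2⟩, mem_Uf.2 h4.2.2⟩, ?_⟩
    simp

/-- Decoding with the steps in the last triangle. -/
def Fd (j : ℕ) (p : (List (ℤ × ℤ) × List Bool) × (ℤ × ℤ)) : List Dt :=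
  match j with
  | 0 => dec o' p.1.1 p.1.2
  | 1 => (p.1.1.headI, p.1.1.headI + p.2) :: dec o' p.1.1 p.1.2
  | _ => (p.1.1.headI, p.1.1.headI + p.2) ::
      (p.1.1.headI, third p.1.1.headI (p.1.1.tail.headD o') (p.1.1.headI + p.2)) :: dec o' p.1.1 p.1.2

lemma two_le_wt : ∀ cs : List Bool, 2 * cs.length ≤ wt cs
  | [] => by simp
  | c :: cs => by
    have := two_le_wt cs
    rw [wt_cons, List.length_cons]
    split_ifs <;> omega

/-- The finite set of codes. -/
noncomputable def Tf (n : ℕ) : Finset (List Dt) :=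
  (range 3 ×ˢ range (n + 1)).biUnion fun p => if p.1 ≤ n then
    ((NWf p.2 ×ˢ CS p.2 (n - p.1)) ×ˢ Uf).image (Fd p.1) else ∅

lemma card_Tf (n : ℕ) : (Tf n).card ≤ ∑ j ∈ range 3, if j ≤ n then
    6 * ∑ k ∈ range (n + 1), nw k * cnt k (n - j) else 0 := by
  unfold Tf
  refine card_biUnion_le.trans ?_
  rw [sum_product]
  refine sum_le_sum fun j _ => ?_
  by_cases hj : j ≤ n
  · simp only [if_pos hj]
    rw [mul_sum]
    refine sum_le_sum fun k _ => ?_
    refine card_image_le.trans ?_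
    rw [card_product, card_product, card_Uf]
    have := card_NWf k
    unfold cnt
    calc (NWf k).card * (CS k (n - j)).card * 6 ≤ nw k * (CS k (n - j)).card * 6 :=
          Nat.mul_le_mul_right _ (Nat.mul_le_mul_right _ this)
      _ = 6 * (nw k * (CS k (n - j)).card) := by ring
  · simp [if_neg hj]

/-- Walks whose first step is not a crossing. -/
def NC (n : ℕ) : Set (List Dt) := {P | GW LR d0 n P ∧ ¬ [(o', o), (o, o')] <:+ P}

lemma NC_finite (n : ℕ) : (NC n).Finite := (GW_fin d0 n).subset fun _ h => h.1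

lemma NC_sub (n : ℕ) : NC n ⊆ ↑(Tf n) := by
  rintro P ⟨hP, hs⟩
  obtain ⟨a, r, cs, t, k1, k2, k3, k4, k5, k6, k7⟩ := struct adj_o n P hP hs
  have hlen : t.length + (wt cs + 1) = n + 1 := by
    rw [← dec_length o' cs a r k2, ← List.length_append, ← k1]; exact hP.1
  have hwt := two_le_wt cs
  have hmem : a :: r ∈ NWf cs.length := by rw [← k2]; exact mem_NWf k3 k4 k6
  have main : ∀ (j : ℕ) (δ : ℤ × ℤ), j < 3 → j = t.length → U δ → Fd j ((a :: r, cs), δ) = P → P ∈ Tf n := by
    intro j δ hj hjt hδ hF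
    unfold Tf
    rw [mem_biUnion]
    refine ⟨(j, cs.length), ?_, ?_⟩
    · simp only [mem_product, mem_range]; omega
    · simp only
      rw [if_pos (by omega)]
      refine mem_image.2 ⟨((a :: r, cs), δ), ?_, hF⟩
      simp only [mem_product]
      exact ⟨⟨hmem, (mem_CS _ _ _).2 ⟨rfl, by omega⟩⟩, mem_Uf.2 hδ⟩
  rw [mem_coe]
  rcases k7 with rfl | ⟨u, l1, l2, rfl⟩ | ⟨u, u', l1, l2, l3, l4, l5, rfl⟩
  · refine main 0 (1, 0) (by norm_num) rfl (by decide) ?_
    rw [k1]; rfl
  · refine main 1 (u - a) (by norm_num) rfl l1.symm.2.2 ?_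
    rw [k1]
    simp only [Fd, List.headI_cons, List.cons_append, List.nil_append]
    rw [show a + (u - a) = u by ring]
  · have hae : Adj a (r.headD o') := adj_head k3 k4 adj_o
    have e2 : u = third a (r.headD o') u' := third_unique hae l2 l1 l4 l3 l5
    refine main 2 (u' - a) (by norm_num) rfl l2.symm.2.2 ?_
    rw [k1]
    simp only [Fd, List.headI_cons, List.tail_cons, List.cons_append, List.nil_append]
    rw [show a + (u' - a) = u' by ring, ← e2]

lemma NC_card (n : ℕ) : (NC n).ncard ≤ ∑ j ∈ range 3, if j ≤ n then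
    6 * ∑ k ∈ range (n + 1), nw k * cnt k (n - j) else 0 := by
  refine le_trans ?_ (card_Tf n)
  rw [← Set.ncard_coe_finset]
  exact Set.ncard_le_ncard (NC_sub n) (Finset.finite_toSet _)

/-- Splitting off a first crossing. -/
theorem upper_split (n : ℕ) : bn (n + 1) ≤ (NC (n + 1)).ncard + (NC n).ncard := by
  have h0 : bn (n + 1) = {P | GW LR d0 (n + 1) P}.ncard := ncard_SF _ _ _
  rw [h0]
  set C : Set (List Dt) := {P | GW LR d0 (n + 1) P ∧ [(o', o), (o, o')] <:+ P} with hC
  have h1 : {P | GW LR d0 (n + 1) P} ⊆ NC (n + 1) ∪ C := by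
    intro P hP
    by_cases hs : [(o', o), (o, o')] <:+ P
    · right; exact ⟨hP, hs⟩
    · left; exact ⟨hP, hs⟩
  have hCfin : C.Finite := (GW_fin d0 (n + 1)).subset fun _ h => h.1
  refine (Set.ncard_le_ncard h1 ((NC_finite _).union hCfin)).trans ((Set.ncard_union_le _ _).trans ?_)
  refine Nat.add_le_add_left ?_ _
  -- drop the first vertex and move the second one to the base
  have hd1 : IsD (o', o) := adj_o.symm
  have hmv0 : mv (o', o) (o', o) = d0 := homog.move _ hd1
  have hmv1 : mv (o', o) (o, o') = (o', o) := by decide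
  refine Set.ncard_le_ncard_of_injOn (fun P => P.dropLast.map (mv (o', o))) ?_ ?_ (NC_finite n)
  · rintro P ⟨⟨g1, g2, g3, g4⟩, ⟨Q, hQ⟩⟩
    have e1 : P = (Q ++ [(o', o)]) ++ [(o, o')] := by rw [← hQ]; simp
    have e2 : P.dropLast = Q ++ [(o', o)] := by rw [e1, List.dropLast_concat]
    rw [e2]
    have g2' : (Q ++ [(o', o)]).Nodup := by
      rw [← e2]; exact g2.sublist (List.dropLast_sublist _)
    have g3' : (Q ++ [(o', o)]).IsChain LR := by
      rw [e1] at g3; exact (List.isChain_append.1 g3).1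
    refine ⟨⟨?_, ?_, ?_, ?_⟩, ?_⟩
    · rw [List.length_map]
      have : P.length = (Q ++ [(o', o)]).length + 1 := by rw [e1, List.length_append]; rfl
      omega
    · exact g2'.map (mv_inj hd1)
    · rw [List.isChain_map]
      exact g3'.imp fun a b h => mv_LR hd1 h
    · rw [List.map_append, List.getLast?_append]
      simp [hmv0]
    · rintro ⟨Z, hZ⟩
      have hm : (o', o) ∈ (Q ++ [(o', o)]).map (mv (o', o)) := by rw [← hZ]; simp
      obtain ⟨x, hx1, hx2⟩ := List.mem_map.1 hm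
      have : x = (o, o') := mv_inj hd1 (hx2.trans hmv1.symm)
      subst this
      rw [e1] at g2
      have := (List.nodup_append.1 g2).2.2 _ hx1 (o, o') (by simp)
      exact this rfl
  · rintro P ⟨⟨g1, g2, g3, g4⟩, ⟨Q, hQ⟩⟩ P' ⟨⟨g1', g2', g3', g4'⟩, ⟨Q', hQ'⟩⟩ heq
    have e1 : P = (Q ++ [(o', o)]) ++ [(o, o')] := by rw [← hQ]; simp
    have e1' : P' = (Q' ++ [(o', o)]) ++ [(o, o')] := by rw [← hQ']; simp
    simp only [e1, e1', List.dropLast_concat] at heq
    have := List.map_injective_iff.2 (mv_inj hd1) heq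
    rw [e1, e1', this]

end Pool.Agent.Hhelper64.T12
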