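import Mathlib

/-!
Self-avoiding paths in a graph given by a relation: functions and lists, submultiplicativity and pairs of
disjoint paths in a homogeneous graph.
-/

namespace Pool.Agent.Hhelper64.T12

variable {X : Type*}

/-- Self-avoiding paths as functions. -/
def SF (R : X → X → Prop) (x : X) (n : ℕ) : Set (Fin (n + 1) → X) :=
  {w | w 0 = x ∧ (∀ i : Fin n, R (w i.succ) (w i.castSucc)) ∧ Function.Injective w}

/-- Self-avoiding paths as lists, latest vertex first. -/
def GW (R : X → X → Prop) (x : X) (n : ℕ) (P : List X) : Prop :=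
  P.length = n + 1 ∧ P.Nodup ∧ P.IsChain R ∧ P.getLast? = some x

/-- The list of a path. -/
def toL (n : ℕ) (w : Fin (n + 1) → X) : List X := (List.ofFn w).reverse

lemma toL_inj (n : ℕ) : Function.Injective (toL (X := X) n) := by
  intro w w' h
  exact List.ofFn_injective (List.reverse_injective h)

lemma toL_surj {n : ℕ} {P : List X} (h : P.length = n + 1) : ∃ w, toL n w = P := by
  have h' : P.reverse.length = n + 1 := by rw [List.length_reverse, h]
  refine ⟨fun i => P.reverse.get (Fin.cast h'.symm i), ?_⟩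
  unfold toL
  rw [List.reverse_eq_iff]
  apply List.ext_getElem
  · simp [h]
  · intro i h1 h2
    rw [List.getElem_ofFn]
    simp

lemma toL_mem {R : X → X → Prop} {x : X} {n : ℕ} {w : Fin (n + 1) → X} :
    GW R x n (toL n w) ↔ w ∈ SF R x n := by
  unfold GW toL SF
  rw [List.length_reverse, List.length_ofFn, List.nodup_reverse, List.nodup_ofFn, List.isChain_reverse,
    List.isChain_ofFn, List.getLast?_reverse]
  have h0 : (List.ofFn w).head? = some (w 0) := by
    rw [List.ofFn_succ]; rfl
  rw [h0]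
  constructor
  · rintro ⟨-, h1, h2, h3⟩
    refine ⟨by simpa using h3, fun i => ?_, h1⟩
    exact h2 i (by omega)
  · rintro ⟨h1, h2, h3⟩
    refine ⟨rfl, h3, fun i hi => ?_, by rw [h1]⟩
    exact h2 ⟨i, by omega⟩

/-- The set of lists is the image of the set of functions. -/
lemma GW_image {R : X → X → Prop} {x : X} {n : ℕ} : {P | GW R x n P} = toL n '' SF R x n := by
  ext P
  constructor
  · intro h
    obtain ⟨w, rfl⟩ := toL_surj (X := X) (n := n) (P := P) h.1
    exact ⟨w, toL_mem.1 h, rfl⟩
  · rintro ⟨w, h, rfl⟩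
    exact toL_mem.2 h

theorem ncard_SF (R : X → X → Prop) (x : X) (n : ℕ) : (SF R x n).ncard = {P | GW R x n P}.ncard := by
  rw [GW_image, Set.ncard_image_of_injective _ (toL_inj n)]

lemma GW_finite {R : X → X → Prop} (hR : ∀ y, {z | R z y}.Finite) (x : X) (n : ℕ) :
    {P | GW R x n P}.Finite := by
  induction n with
  | zero =>
    refine Set.Finite.subset (Set.finite_singleton [x]) ?_
    rintro P ⟨h1, -, -, h4⟩
    match P, h1 with
    | [y], _ =>
      simp only [List.getLast?_singleton, Option.some.injEq] at h4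
      rw [h4]; rfl
  | succ n ih =>
    refine Set.Finite.subset (Set.Finite.biUnion ih
      (t := fun P' => (fun z => z :: P') '' {z | R z (P'.headD x)}) fun P' _ => (hR _).image _) ?_
    rintro P ⟨h1, h2, h3, h4⟩
    match P, h1 with
    | z :: y :: r, h1 =>
      refine Set.mem_biUnion (x := y :: r) ?_ ⟨z, ?_, rfl⟩
      · refine ⟨by simpa using h1, (List.nodup_cons.1 h2).2, ?_, ?_⟩
        · exact (List.isChain_cons_cons.1 h3).2
        · rw [List.getLast?_cons_cons] at h4; exact h4
      · exact (List.isChain_cons_cons.1 h3).1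

lemma SF_finite {R : X → X → Prop} (hR : ∀ y, {z | R z y}.Finite) (x : X) (n : ℕ) : (SF R x n).Finite := by
  have h := GW_finite hR x n
  rw [GW_image] at h
  exact Set.Finite.of_finite_image h (toL_inj n).injOn

/-- Comparison along an injective graph morphism. -/
lemma SF_le_of_map {R : X → X → Prop} (hR : ∀ y, {z | R z y}.Finite) {x y : X} (σ : X → X)
    (hσ : Function.Injective σ) (hσR : ∀ a b, R a b → R (σ a) (σ b)) (hxy : σ x = y) (n : ℕ) :
    (SF R x n).ncard ≤ (SF R y n).ncard := by
  refine Set.ncard_le_ncard_of_injOn (fun w => σ ∘ w) ?_ ?_ (SF_finite hR y n)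
  · rintro w ⟨h1, h2, h3⟩
    exact ⟨by simp only [Function.comp_apply, h1, hxy], fun i => hσR _ _ (h2 i), hσ.comp h3⟩
  · intro w _ w' _ h
    funext i
    exact hσ (congrFun h i)

/-- A homogeneous graph: maps `τ y` moving `y` to the base vertex. -/
structure Homog (R : X → X → Prop) (S : Set X) (x : X) (τ : X → X → X) : Prop where
  base : x ∈ S
  mem : ∀ a b, R a b → a ∈ S
  symm : ∀ a b, R a b → R b a
  fin : ∀ y, {z | R z y}.Finite
  move : ∀ y ∈ S, τ y y = x
  inj : ∀ y ∈ S, Function.Injective (τ y)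
  map : ∀ y ∈ S, ∀ a b, R a b → R (τ y a) (τ y b)
  faithful : ∀ y ∈ S, ∀ y' ∈ S, τ y x = τ y' x → y = y'
  back : ∀ y ∈ S, ∃ σ : X → X, Function.Injective σ ∧ (∀ a b, R a b → R (σ a) (σ b)) ∧ σ x = y

lemma SF_mem {R : X → X → Prop} {S : Set X} {x : X} {τ : X → X → X} (H : Homog R S x τ) {n : ℕ} {y : X}
    (hy : y ∈ S) {w : Fin (n + 1) → X} (hw : w ∈ SF R y n) (i : Fin (n + 1)) : w i ∈ S := by
  rcases Fin.eq_zero_or_eq_succ i with h | ⟨j, h⟩
  · rw [h, hw.1]; exact hy
  · rw [h]; exact H.mem _ _ (hw.2.1 j)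

theorem SF_base {R : X → X → Prop} {S : Set X} {x : X} {τ : X → X → X} (H : Homog R S x τ) {y : X}
    (hy : y ∈ S) (n : ℕ) : (SF R y n).ncard = (SF R x n).ncard := by
  apply le_antisymm
  · exact SF_le_of_map H.fin (τ y) (H.inj y hy) (H.map y hy) (H.move y hy) n
  · obtain ⟨σ, h1, h2, h3⟩ := H.back y hy
    exact SF_le_of_map H.fin σ h1 h2 h3 n

theorem SF_submul {R : X → X → Prop} {S : Set X} {x : X} {τ : X → X → X} (H : Homog R S x τ) (n m : ℕ) :
    (SF R x (n + m)).ncard ≤ (SF R x n).ncard * (SF R x m).ncard := by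
  rw [← Set.ncard_prod]
  refine Set.ncard_le_ncard_of_injOn
    (fun w => ((fun i : Fin (n + 1) => w ⟨i, by omega⟩),
      (fun i : Fin (m + 1) => τ (w ⟨n, by omega⟩) (w ⟨n + i, by omega⟩)))) ?_ ?_
    ((SF_finite H.fin x n).prod (SF_finite H.fin x m))
  · intro w hw
    have hS := SF_mem H H.base hw
    obtain ⟨h1, h2, h3⟩ := hw
    refine ⟨⟨h1, fun i => ?_, ?_⟩, ⟨?_, fun i => ?_, ?_⟩⟩
    · exact h2 ⟨i, by omega⟩
    · intro i j hij
      have := h3 hij
      exact Fin.ext (by simpa using this)
    · exact H.move _ (hS _)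
    · exact H.map _ (hS _) _ _ (h2 ⟨n + i, by omega⟩)
    · intro i j hij
      have := h3 (H.inj _ (hS _) hij)
      exact Fin.ext (by simpa using this)
  · intro w hw w' hw' h
    have hS := SF_mem H H.base hw
    simp only [Prod.mk.injEq] at h
    obtain ⟨e1, e2⟩ := h
    funext i
    by_cases hi : (i : ℕ) ≤ n
    · exact congrFun e1 ⟨i, by omega⟩
    · have e3 := congrFun e2 ⟨i - n, by omega⟩
      have e4 := congrFun e1 ⟨n, by omega⟩
      simp only at e3 e4
      rw [← e4] at e3
      have e5 := H.inj _ (hS _) e3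
      have e6 : (⟨n + (i - n), by omega⟩ : Fin (n + m + 1)) = i := Fin.ext (by simp; omega)
      rw [e6] at e5
      exact e5

/-- Pairs of disjoint paths. -/
def PairsG (R : X → X → Prop) (x : X) (n : ℕ) : Set ((Fin (n + 1) → X) × (Fin (n + 1) → X)) :=
  {q | q.1 ∈ SF R x n ∧ q.2 ∈ SF R x n ∧ ∀ i j : Fin (n + 1), i ≠ 0 → q.1 i ≠ q.2 j}

lemma PairsG_finite {R : X → X → Prop} (hR : ∀ y, {z | R z y}.Finite) (x : X) (n : ℕ) :
    (PairsG R x n).Finite :=
  Set.Finite.subset ((SF_finite hR x n).prod (SF_finite hR x n)) fun _ hq => ⟨hq.1, hq.2.1⟩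

theorem pairs_le {R : X → X → Prop} {S : Set X} {x : X} {τ : X → X → X} (H : Homog R S x τ) (n : ℕ) :
    (PairsG R x n).ncard ≤ (SF R x (2 * n)).ncard := by
  have hlt : ∀ k : ℕ, n - k < n + 1 := fun k => by omega
  have hlt2 : ∀ i : Fin (2 * n + 1), (i : ℕ) - n < n + 1 := fun i => by omega
  set f : (Fin (n + 1) → X) × (Fin (n + 1) → X) → (Fin (2 * n + 1) → X) := fun q i =>
    τ (q.1 (Fin.last n)) (if (i : ℕ) ≤ n then q.1 ⟨n - i, hlt i⟩ else q.2 ⟨i - n, hlt2 i⟩) with hf
  refine Set.ncard_le_ncard_of_injOn f ?_ ?_ (SF_finite H.fin x (2 * n))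
  · rintro ⟨w, w'⟩ ⟨hw, hw', hd⟩
    have hS := SF_mem H H.base hw
    simp only at hw hw' hd
    refine ⟨?_, fun i => ?_, ?_⟩
    · simp only [hf, Fin.val_zero, Nat.zero_le, if_true, Nat.sub_zero]
      exact H.move _ (hS _)
    · simp only [hf, Fin.val_succ, Fin.val_castSucc]
      apply H.map _ (hS _)
      by_cases h1 : (i : ℕ) + 1 ≤ n
      · rw [if_pos h1, if_pos (by omega)]
        have := hw.2.1 ⟨n - (i + 1), by omega⟩
        have e1 : (⟨n - (i + 1), by omega⟩ : Fin n).castSucc = ⟨n - (i + 1), hlt _⟩ := rfl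
        have e2 : (⟨n - (i + 1), by omega⟩ : Fin n).succ = ⟨n - i, hlt _⟩ := Fin.ext (by simp; omega)
        rw [e1, e2] at this
        exact H.symm _ _ this
      · by_cases h2 : (i : ℕ) ≤ n
        · rw [if_neg h1, if_pos h2]
          have hi : (i : ℕ) = n := by omega
          have e1 : (⟨n - i, hlt i⟩ : Fin (n + 1)) = 0 := Fin.ext (by simp; omega)
          have hn : 0 < n := by omega
          have e2 : (⟨i + 1 - n, by omega⟩ : Fin (n + 1)) = (⟨0, hn⟩ : Fin n).succ := Fin.ext (by simp; omega)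
          rw [e1, hw.1, ← hw'.1]
          have := hw'.2.1 ⟨0, hn⟩
          rw [← e2] at this
          exact this
        · rw [if_neg h1, if_neg h2]
          have := hw'.2.1 ⟨i - n, by omega⟩
          have e2 : (⟨i - n, by omega⟩ : Fin n).succ = ⟨i + 1 - n, by omega⟩ := Fin.ext (by simp; omega)
          rw [e2] at this
          exact this
    · intro i j hij
      simp only [hf] at hij
      have hij' := H.inj _ (hS _) hij
      by_cases h1 : (i : ℕ) ≤ n <;> by_cases h2 : (j : ℕ) ≤ n
      · rw [if_pos h1, if_pos h2] at hij'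
        have := hw.2.2 hij'
        simp only [Fin.mk.injEq] at this
        exact Fin.ext (by omega)
      · rw [if_pos h1, if_neg h2] at hij'
        exfalso
        by_cases h3 : (i : ℕ) = n
        · have e1 : (⟨n - i, hlt i⟩ : Fin (n + 1)) = 0 := Fin.ext (by simp; omega)
          rw [e1, hw.1, ← hw'.1] at hij'
          have := hw'.2.2 hij'
          have := congrArg Fin.val this
          simp only [Fin.val_zero] at this
          omega
        · refine hd _ _ ?_ hij'
          intro h4
          have := congrArg Fin.val h4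
          simp only [Fin.val_zero] at this
          omega
      · rw [if_neg h1, if_pos h2] at hij'
        exfalso
        by_cases h3 : (j : ℕ) = n
        · have e1 : (⟨n - j, hlt j⟩ : Fin (n + 1)) = 0 := Fin.ext (by simp; omega)
          rw [e1, hw.1, ← hw'.1] at hij'
          have := hw'.2.2 hij'
          have := congrArg Fin.val this
          simp only [Fin.val_zero] at this
          omega
        · refine hd _ _ ?_ hij'.symm
          intro h4
          have := congrArg Fin.val h4
          simp only [Fin.val_zero] at this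
          omega
      · rw [if_neg h1, if_neg h2] at hij'
        have := hw'.2.2 hij'
        simp only [Fin.mk.injEq] at this
        exact Fin.ext (by omega)
  · rintro ⟨w, w'⟩ ⟨hw, hw', hd⟩ ⟨y, y'⟩ ⟨hy, hy', hd'⟩ heq
    have hS := SF_mem H H.base hw
    have hS' := SF_mem H H.base hy
    simp only at hw hw' hd hy hy' hd'
    have hlast : w (Fin.last n) = y (Fin.last n) := by
      have h1 := congrFun heq ⟨n, by omega⟩
      simp only [hf, le_refl, if_true, Nat.sub_self] at h1
      have e1 : (⟨0, by omega⟩ : Fin (n + 1)) = 0 := rfl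
      rw [e1, hw.1, hy.1] at h1
      exact H.faithful _ (hS _) _ (hS' _) h1
    have key : ∀ i : Fin (2 * n + 1), (if (i : ℕ) ≤ n then w ⟨n - i, hlt i⟩ else w' ⟨i - n, hlt2 i⟩) =
        (if (i : ℕ) ≤ n then y ⟨n - i, hlt i⟩ else y' ⟨i - n, hlt2 i⟩) := by
      intro i
      have h1 := congrFun heq i
      simp only [hf] at h1
      rw [← hlast] at h1
      exact H.inj _ (hS _) h1
    have e1 : w = y := by
      funext i
      have h1 := key ⟨n - i, by omega⟩
      rw [if_pos (by simp), if_pos (by simp)] at h1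
      have e2 : (⟨n - ((⟨n - i, by omega⟩ : Fin (2 * n + 1)) : ℕ), hlt _⟩ : Fin (n + 1)) = i :=
        Fin.ext (by simp; omega)
      rw [e2] at h1
      exact h1
    have e3 : w' = y' := by
      funext i
      by_cases hi : (i : ℕ) = 0
      · have : i = 0 := Fin.ext (by simpa using hi)
        rw [this, hw'.1, hy'.1]
      · have h1 := key ⟨n + i, by omega⟩
        have hni : ¬ (n + (i : ℕ) ≤ n) := by omega
        rw [if_neg hni, if_neg hni] at h1
        have e2 : (⟨((⟨n + i, by omega⟩ : Fin (2 * n + 1)) : ℕ) - n, hlt2 _⟩ : Fin (n + 1)) = i :=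
          Fin.ext (by simp)
        rw [e2] at h1
        exact h1
    rw [e1, e3]

end Pool.Agent.Hhelper64.T12
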