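import Pool.Agent.Hhelper14.SAW.Count
import Pool.Agent.Hhelper64.T12.Gen

/-!
Darts of the honeycomb lattice: the vertices of the lattice `(3,12^2)`.
-/

namespace Pool.Agent.Hhelper64.T12

open Pool.Agent.Hhelper14.SAW

abbrev Dt : Type := (ℤ × ℤ) × (ℤ × ℤ)

/-- Darts: pairs of adjacent honeycomb vertices. -/
def IsD (d : Dt) : Prop := Adj d.1 d.2

/-- Adjacency of darts: reversal, or same first vertex. -/
def LR (d e : Dt) : Prop := IsD d ∧ IsD e ∧ ((d.1 = e.2 ∧ d.2 = e.1) ∨ (d.1 = e.1 ∧ d.2 ≠ e.2))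

/-- Product of `ℤ[ω]`. -/
def ml (x y : ℤ × ℤ) : ℤ × ℤ := (x.1 * y.1 - x.2 * y.2, x.1 * y.2 + x.2 * y.1 + x.2 * y.2)

/-- Conjugation of `ℤ[ω]`. -/
def cj (x : ℤ × ℤ) : ℤ × ℤ := (x.1 + x.2, -x.2)

/-- The rotation taking the dart `d` to the base dart. -/
def psi (d : Dt) (z : ℤ × ℤ) : ℤ × ℤ := ml (cj (d.2 - d.1)) (d.1 - z)

def mv (d e : Dt) : Dt := (psi d e.1, psi d e.2)

/-- The inverse rotation. -/
def rho (d : Dt) (z : ℤ × ℤ) : ℤ × ℤ := d.1 - ml (d.2 - d.1) z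

def mw (d e : Dt) : Dt := (rho d e.1, rho d e.2)

/-- The base dart. -/
def d0 : Dt := (o, o')

lemma isD_d0 : IsD d0 := adj_o

lemma isD_psi {d : Dt} (hd : IsD d) {a b : ℤ × ℤ} (h : Adj a b) : Adj (psi d a) (psi d b) := by
  obtain ⟨⟨v1, v2⟩, ⟨w1, w2⟩⟩ := d
  obtain ⟨a1, a2⟩ := a
  obtain ⟨b1, b2⟩ := b
  obtain ⟨h1, h2, h3⟩ := hd
  obtain ⟨h4, h5, h6⟩ := h
  simp only [Adj, hon, U, psi, ml, cj, Prod.mk_sub_mk] at *
  rcases h3 with ⟨h3, h3'⟩ | ⟨h3, h3'⟩ | ⟨h3, h3'⟩ | ⟨h3, h3'⟩ | ⟨h3, h3'⟩ | ⟨h3, h3'⟩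
  · obtain rfl : w1 = v1 - 1 := by omega
    obtain rfl : w2 = v2 := by omega
    ring_nf at *; omega
  · obtain rfl : w1 = v1 := by omega
    obtain rfl : w2 = v2 - 1 := by omega
    ring_nf at *; omega
  · obtain rfl : w1 = v1 + 1 := by omega
    obtain rfl : w2 = v2 - 1 := by omega
    ring_nf at *; omega
  · obtain rfl : w1 = v1 + 1 := by omega
    obtain rfl : w2 = v2 := by omega
    ring_nf at *; omega
  · obtain rfl : w1 = v1 := by omega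
    obtain rfl : w2 = v2 + 1 := by omega
    ring_nf at *; omega
  · obtain rfl : w1 = v1 - 1 := by omega
    obtain rfl : w2 = v2 + 1 := by omega
    ring_nf at *; omega

lemma isD_rho {d : Dt} (hd : IsD d) {a b : ℤ × ℤ} (h : Adj a b) : Adj (rho d a) (rho d b) := by
  obtain ⟨⟨v1, v2⟩, ⟨w1, w2⟩⟩ := d
  obtain ⟨a1, a2⟩ := a
  obtain ⟨b1, b2⟩ := b
  obtain ⟨h1, h2, h3⟩ := hd
  obtain ⟨h4, h5, h6⟩ := h
  simp only [Adj, hon, U, rho, ml, Prod.mk_sub_mk] at *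
  rcases h3 with ⟨h3, h3'⟩ | ⟨h3, h3'⟩ | ⟨h3, h3'⟩ | ⟨h3, h3'⟩ | ⟨h3, h3'⟩ | ⟨h3, h3'⟩
  · obtain rfl : w1 = v1 - 1 := by omega
    obtain rfl : w2 = v2 := by omega
    ring_nf at *; omega
  · obtain rfl : w1 = v1 := by omega
    obtain rfl : w2 = v2 - 1 := by omega
    ring_nf at *; omega
  · obtain rfl : w1 = v1 + 1 := by omega
    obtain rfl : w2 = v2 - 1 := by omega
    ring_nf at *; omega
  · obtain rfl : w1 = v1 + 1 := by omega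
    obtain rfl : w2 = v2 := by omega
    ring_nf at *; omega
  · obtain rfl : w1 = v1 := by omega
    obtain rfl : w2 = v2 + 1 := by omega
    ring_nf at *; omega
  · obtain rfl : w1 = v1 - 1 := by omega
    obtain rfl : w2 = v2 + 1 := by omega
    ring_nf at *; omega

lemma ml_inj {u : ℤ × ℤ} (hu : U u) {x y : ℤ × ℤ} (h : ml u x = ml u y) : x = y := by
  obtain ⟨u1, u2⟩ := u
  obtain ⟨x1, x2⟩ := x
  obtain ⟨y1, y2⟩ := y
  simp only [U, ml, Prod.mk.injEq] at *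
  rcases hu with ⟨rfl, rfl⟩ | ⟨rfl, rfl⟩ | ⟨rfl, rfl⟩ | ⟨rfl, rfl⟩ | ⟨rfl, rfl⟩ | ⟨rfl, rfl⟩ <;> omega

lemma U_cj {u : ℤ × ℤ} (hu : U u) : U (cj u) := by
  obtain ⟨u1, u2⟩ := u
  simp only [U, cj] at *
  rcases hu with ⟨rfl, rfl⟩ | ⟨rfl, rfl⟩ | ⟨rfl, rfl⟩ | ⟨rfl, rfl⟩ | ⟨rfl, rfl⟩ | ⟨rfl, rfl⟩ <;> omega

lemma cj_inj {x y : ℤ × ℤ} (h : cj x = cj y) : x = y := by
  obtain ⟨x1, x2⟩ := x
  obtain ⟨y1, y2⟩ := y
  simp only [cj, Prod.mk.injEq] at *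
  omega

lemma psi_inj {d : Dt} (hd : IsD d) {x y : ℤ × ℤ} (h : psi d x = psi d y) : x = y :=
  sub_right_injective (ml_inj (U_cj hd.symm.2.2) h)

lemma rho_inj {d : Dt} (hd : IsD d) {x y : ℤ × ℤ} (h : rho d x = rho d y) : x = y :=
  ml_inj hd.symm.2.2 (sub_right_injective h)

lemma mv_inj {d : Dt} (hd : IsD d) : Function.Injective (mv d) := by
  intro x y h
  simp only [mv, Prod.mk.injEq] at h
  exact Prod.ext (psi_inj hd h.1) (psi_inj hd h.2)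

lemma mw_inj {d : Dt} (hd : IsD d) : Function.Injective (mw d) := by
  intro x y h
  simp only [mw, Prod.mk.injEq] at h
  exact Prod.ext (rho_inj hd h.1) (rho_inj hd h.2)

lemma mv_LR {d : Dt} (hd : IsD d) {a b : Dt} (h : LR a b) : LR (mv d a) (mv d b) := by
  obtain ⟨h1, h2, h3⟩ := h
  refine ⟨isD_psi hd h1, isD_psi hd h2, ?_⟩
  rcases h3 with ⟨h3, h4⟩ | ⟨h3, h4⟩
  · left; simp only [mv, h3, h4, and_self]
  · right
    refine ⟨by simp only [mv, h3], fun h5 => h4 (psi_inj hd h5)⟩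

lemma mw_LR {d : Dt} (hd : IsD d) {a b : Dt} (h : LR a b) : LR (mw d a) (mw d b) := by
  obtain ⟨h1, h2, h3⟩ := h
  refine ⟨isD_rho hd h1, isD_rho hd h2, ?_⟩
  rcases h3 with ⟨h3, h4⟩ | ⟨h3, h4⟩
  · left; simp only [mw, h3, h4, and_self]
  · right
    refine ⟨by simp only [mw, h3], fun h5 => h4 (rho_inj hd h5)⟩

lemma LR.symm {d e : Dt} (h : LR d e) : LR e d := by
  obtain ⟨h1, h2, h3⟩ := h
  refine ⟨h2, h1, ?_⟩
  rcases h3 with ⟨h3, h4⟩ | ⟨h3, h4⟩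
  · left; exact ⟨h4.symm, h3.symm⟩
  · right; exact ⟨h3.symm, fun h => h4 h.symm⟩

lemma nbr_finite (v : ℤ × ℤ) : {w | Adj v w}.Finite := by
  refine Set.Finite.subset (Set.Finite.prod (Set.finite_Icc (v.1 - 1) (v.1 + 1))
    (Set.finite_Icc (v.2 - 1) (v.2 + 1))) ?_
  rintro ⟨a, b⟩ ⟨-, -, h⟩
  simp only [U, Prod.fst_sub, Prod.snd_sub] at h
  simp only [Set.mem_prod, Set.mem_Icc]
  omega

lemma LR_finite (e : Dt) : {d | LR d e}.Finite := by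
  refine Set.Finite.subset (Set.Finite.union (Set.finite_singleton (e.2, e.1))
    ((nbr_finite e.1).image (fun w => (e.1, w)))) ?_
  rintro ⟨a, b⟩ ⟨h1, h2, h3⟩
  rcases h3 with ⟨h3, h4⟩ | ⟨h3, h4⟩
  · left
    simp only at h3 h4
    rw [h3, h4]; rfl
  · right
    simp only at h3 h4
    subst h3
    exact ⟨b, h1, rfl⟩

theorem homog : Homog LR {d | IsD d} d0 mv where
  base := isD_d0
  mem := fun _ _ h => h.1
  symm := fun _ _ h => h.symm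
  fin := LR_finite
  move := by
    rintro ⟨⟨v1, v2⟩, ⟨w1, w2⟩⟩ ⟨h1, h2, h3⟩
    simp only [mv, psi, ml, cj, d0, o, o', U, Prod.mk_sub_mk, Prod.mk.injEq] at *
    rcases h3 with ⟨h3, h3'⟩ | ⟨h3, h3'⟩ | ⟨h3, h3'⟩ | ⟨h3, h3'⟩ | ⟨h3, h3'⟩ | ⟨h3, h3'⟩
    · obtain rfl : w1 = v1 - 1 := by omega
      obtain rfl : w2 = v2 := by omega
      refine ⟨⟨?_, ?_⟩, ?_, ?_⟩ <;> ring
    · obtain rfl : w1 = v1 := by omega
      obtain rfl : w2 = v2 - 1 := by omega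
      refine ⟨⟨?_, ?_⟩, ?_, ?_⟩ <;> ring
    · obtain rfl : w1 = v1 + 1 := by omega
      obtain rfl : w2 = v2 - 1 := by omega
      refine ⟨⟨?_, ?_⟩, ?_, ?_⟩ <;> ring
    · obtain rfl : w1 = v1 + 1 := by omega
      obtain rfl : w2 = v2 := by omega
      refine ⟨⟨?_, ?_⟩, ?_, ?_⟩ <;> ring
    · obtain rfl : w1 = v1 := by omega
      obtain rfl : w2 = v2 + 1 := by omega
      refine ⟨⟨?_, ?_⟩, ?_, ?_⟩ <;> ring
    · obtain rfl : w1 = v1 - 1 := by omega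
      obtain rfl : w2 = v2 + 1 := by omega
      refine ⟨⟨?_, ?_⟩, ?_, ?_⟩ <;> ring
  inj := fun _ h => mv_inj h
  map := fun _ h _ _ h' => mv_LR h h'
  faithful := by
    rintro ⟨v, w⟩ hd ⟨v', w'⟩ hd' h
    simp only [mv, psi, d0, Prod.mk.injEq] at h
    obtain ⟨h1, h2⟩ := h
    have e0 : ∀ u x : ℤ × ℤ, ml u (x - o') - ml u (x - o) = u := by
      rintro ⟨u1, u2⟩ ⟨x1, x2⟩
      simp only [ml, o, o', Prod.mk_sub_mk, Prod.mk.injEq]
      constructor <;> ring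
    have e1 : cj (w - v) = cj (w' - v') := by
      rw [← e0 (cj (w - v)) v, ← e0 (cj (w' - v')) v', h1, h2]
    have e2 := cj_inj e1
    rw [e1] at h1
    have e3 := ml_inj (U_cj hd'.symm.2.2) h1
    have e4 : v = v' := sub_left_injective e3
    subst e4
    have e5 : w = w' := sub_left_injective e2
    rw [e5]
  back := by
    intro d hd
    refine ⟨mw d, mw_inj hd, fun a b h => mw_LR hd h, ?_⟩
    obtain ⟨⟨v1, v2⟩, ⟨w1, w2⟩⟩ := d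
    simp only [mw, rho, ml, d0, o, o', Prod.mk_sub_mk, Prod.mk.injEq]
    refine ⟨⟨?_, ?_⟩, ?_, ?_⟩ <;> ring

end Pool.Agent.Hhelper64.T12
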