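import Pool.Agent.Hhelper64.T12.Dart

/-!
Walks of the lattice `(3,12^2)` described by a honeycomb walk and the number of steps in each triangle.
-/

namespace Pool.Agent.Hhelper64.T12

open Pool.Agent.Hhelper14.SAW

/-- The third neighbour of `b`. -/
def third (b e a : ℤ × ℤ) : ℤ × ℤ := (3 * b.1 - e.1 - a.1, 3 * b.2 - e.2 - a.2)

lemma third_adj {b e a : ℤ × ℤ} (he : Adj b e) (ha : Adj b a) (hne : a ≠ e) :
    Adj b (third b e a) ∧ third b e a ≠ e ∧ third b e a ≠ a := by
  have hb := he.1
  rcases hex_nbr he.symm ha hne.symm with h | h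
  · obtain ⟨b1, b2⟩ := b
    obtain ⟨e1, e2⟩ := e
    obtain ⟨a1, a2⟩ := a
    obtain ⟨-, h5, h6⟩ := ha
    simp only [Adj, hon, U, third, L, Prod.mk_sub_mk, Prod.mk.injEq, ne_eq] at *
    clear he
    rcases h6 with h6 | h6 | h6 | h6 | h6 | h6 <;> omega
  · obtain ⟨b1, b2⟩ := b
    obtain ⟨e1, e2⟩ := e
    obtain ⟨a1, a2⟩ := a
    obtain ⟨-, h5, h6⟩ := ha
    simp only [Adj, hon, U, third, R, Prod.mk_sub_mk, Prod.mk.injEq, ne_eq] at *
    clear he
    rcases h6 with h6 | h6 | h6 | h6 | h6 | h6 <;> omega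

lemma third_unique {b e a c : ℤ × ℤ} (he : Adj b e) (ha : Adj b a) (hc : Adj b c) (h1 : a ≠ e) (h2 : c ≠ e)
    (h3 : c ≠ a) : c = third b e a := by
  have h4 := hex_nbr ha.symm he h1
  have h5 := hex_nbr hc.symm he h2
  have he' := he.2.2
  obtain ⟨b1, b2⟩ := b
  obtain ⟨e1, e2⟩ := e
  obtain ⟨a1, a2⟩ := a
  obtain ⟨c1, c2⟩ := c
  clear he ha hc
  simp only [U, third, L, R, Prod.mk_sub_mk, Prod.mk.injEq, ne_eq] at *
  omega

/-- The dart walk of a honeycomb walk (latest vertex first) and a list of choices. -/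
def dec (w : ℤ × ℤ) : List (ℤ × ℤ) → List Bool → List Dt
  | [v], [] => [(v, w)]
  | a :: b :: r, c :: cs =>
      (a, b) :: (b, a) ::
        (if c then (b, third b (r.headD w) a) :: dec w (b :: r) cs else dec w (b :: r) cs)
  | _, _ => []

/-- Number of steps. -/
def wt (cs : List Bool) : ℕ := (cs.map (fun c => if c then 3 else 2)).sum

/-- No immediate reversal, with respect to the vertex `w` before the first one. -/
def nbw (w : ℤ × ℤ) : List (ℤ × ℤ) → Prop
  | a :: b :: r => a ≠ r.headD w ∧ nbw w (b :: r)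
  | _ => True

lemma wt_cons (c : Bool) (cs : List Bool) : wt (c :: cs) = (if c then 3 else 2) + wt cs := by
  simp [wt]

lemma dec_cons (w : ℤ × ℤ) : ∀ (cs : List Bool) (a : ℤ × ℤ) (r : List (ℤ × ℤ)), r.length = cs.length →
    ∃ Y, dec w (a :: r) cs = (a, r.headD w) :: Y
  | [], a, r, h => by
    obtain rfl : r = [] := List.length_eq_zero_iff.1 h
    exact ⟨[], rfl⟩
  | c :: cs, a, [], h => by simp at h
  | c :: cs, a, b :: r, h => ⟨_, rfl⟩

lemma dec_length (w : ℤ × ℤ) : ∀ (cs : List Bool) (a : ℤ × ℤ) (r : List (ℤ × ℤ)), r.length = cs.length →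
    (dec w (a :: r) cs).length = wt cs + 1
  | [], a, r, h => by
    obtain rfl : r = [] := List.length_eq_zero_iff.1 h
    rfl
  | c :: cs, a, [], h => by simp at h
  | c :: cs, a, b :: r, h => by
    have ih := dec_length w cs b r (by simpa using h)
    rw [dec, wt_cons]
    cases c
    · simp [ih]; omega
    · simp [ih]; omega

lemma dec_last (w : ℤ × ℤ) : ∀ (cs : List Bool) (a : ℤ × ℤ) (r : List (ℤ × ℤ)), r.length = cs.length →
    ∀ v, (a :: r).getLast? = some v → (dec w (a :: r) cs).getLast? = some (v, w)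
  | [], a, r, h, v, hv => by
    obtain rfl : r = [] := List.length_eq_zero_iff.1 h
    simp only [List.getLast?_singleton, Option.some.injEq] at hv
    subst hv
    rfl
  | c :: cs, a, [], h, v, hv => by simp at h
  | c :: cs, a, b :: r, h, v, hv => by
    rw [List.getLast?_cons_cons] at hv
    have h' : r.length = cs.length := by simpa using h
    have ih := dec_last w cs b r h' v hv
    obtain ⟨Y, hY⟩ := dec_cons w cs b r h'
    rw [dec]
    cases c
    · rw [if_neg (by simp), hY, List.getLast?_cons_cons, List.getLast?_cons_cons, ← hY, ih]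
    · rw [if_pos rfl, hY, List.getLast?_cons_cons, List.getLast?_cons_cons, List.getLast?_cons_cons, ← hY, ih]

lemma dec_fst (w : ℤ × ℤ) : ∀ (cs : List Bool) (a : ℤ × ℤ) (r : List (ℤ × ℤ)), r.length = cs.length →
    ∀ d ∈ dec w (a :: r) cs, d.1 ∈ a :: r
  | [], a, r, h, d, hd => by
    obtain rfl : r = [] := List.length_eq_zero_iff.1 h
    simp only [dec, List.mem_singleton] at hd
    subst hd
    simp
  | c :: cs, a, [], h, d, hd => by simp at h
  | c :: cs, a, b :: r, h, d, hd => by
    have ih := dec_fst w cs b r (by simpa using h)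
    rw [dec] at hd
    cases c
    · simp only [Bool.false_eq_true, if_false, List.mem_cons] at hd
      rcases hd with rfl | rfl | hd
      · simp
      · simp
      · exact List.mem_cons_of_mem _ (ih d hd)
    · simp only [if_true, List.mem_cons] at hd
      rcases hd with rfl | rfl | rfl | hd
      · simp
      · simp
      · simp
      · exact List.mem_cons_of_mem _ (ih d hd)

lemma adj_head {w b : ℤ × ℤ} {r : List (ℤ × ℤ)} (h : HChain (b :: r)) {v : ℤ × ℤ}
    (hv : (b :: r).getLast? = some v) (hw : Adj v w) : Adj b (r.headD w) := by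
  cases r with
  | nil =>
    simp only [List.getLast?_singleton, Option.some.injEq] at hv
    subst hv; exact hw
  | cons e r => exact (List.isChain_cons_cons.1 h).1

lemma dec_chain (w : ℤ × ℤ) : ∀ (cs : List Bool) (a : ℤ × ℤ) (r : List (ℤ × ℤ)), r.length = cs.length →
    HChain (a :: r) → nbw w (a :: r) → ∀ v, (a :: r).getLast? = some v → Adj v w →
    (dec w (a :: r) cs).IsChain LR
  | [], a, r, h, _, _, v, _, _ => by
    obtain rfl : r = [] := List.length_eq_zero_iff.1 h
    exact List.isChain_singleton _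
  | c :: cs, a, [], h, _, _, v, _, _ => by simp at h
  | c :: cs, a, b :: r, h, hch, hnb, v, hv, hw => by
    rw [List.getLast?_cons_cons] at hv
    have h' : r.length = cs.length := by simpa using h
    obtain ⟨hab, hch'⟩ := List.isChain_cons_cons.1 hch
    obtain ⟨hn1, hn2⟩ := hnb
    have ih := dec_chain w cs b r h' hch' hn2 v hv hw
    obtain ⟨Y, hY⟩ := dec_cons w cs b r h'
    have hbe : Adj b (r.headD w) := adj_head hch' hv hw
    have hba : Adj b a := hab.symm
    have e1 : LR (a, b) (b, a) := ⟨hab, hba, Or.inl ⟨rfl, rfl⟩⟩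
    rw [dec]
    cases c
    · rw [if_neg (by simp), hY]
      refine List.IsChain.cons_cons e1 (List.IsChain.cons_cons ?_ ?_)
      · exact ⟨hba, hbe, Or.inr ⟨rfl, hn1⟩⟩
      · rw [← hY]; exact ih
    · rw [if_pos rfl, hY]
      obtain ⟨t1, t2, t3⟩ := third_adj hbe hba hn1
      refine List.IsChain.cons_cons e1 (List.IsChain.cons_cons ?_ (List.IsChain.cons_cons ?_ ?_))
      · exact ⟨hba, t1, Or.inr ⟨rfl, t3.symm⟩⟩
      · exact ⟨t1, hbe, Or.inr ⟨rfl, t2⟩⟩
      · rw [← hY]; exact ih

lemma dec_snd (w : ℤ × ℤ) : ∀ (cs : List Bool) (a : ℤ × ℤ) (r : List (ℤ × ℤ)), r.length = cs.length →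
    a ∉ r → ∀ d ∈ dec w (a :: r) cs, d.1 = a → d.2 = r.headD w
  | [], a, r, h, _, d, hd, _ => by
    obtain rfl : r = [] := List.length_eq_zero_iff.1 h
    simp only [dec, List.mem_singleton] at hd
    subst hd
    rfl
  | c :: cs, a, [], h, _, d, hd, _ => by simp at h
  | c :: cs, a, b :: r, h, ha, d, hd, h1 => by
    have hf := dec_fst w cs b r (by simpa using h)
    have hab : a ≠ b := fun h => ha (by rw [h]; simp)
    rw [dec] at hd
    cases c
    · simp only [Bool.false_eq_true, if_false, List.mem_cons] at hd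
      rcases hd with rfl | rfl | hd
      · rfl
      · exact absurd h1.symm hab
      · exact absurd (h1 ▸ hf d hd) ha
    · simp only [if_true, List.mem_cons] at hd
      rcases hd with rfl | rfl | rfl | hd
      · rfl
      · exact absurd h1.symm hab
      · exact absurd h1.symm hab
      · exact absurd (h1 ▸ hf d hd) ha

lemma dec_nodup (w : ℤ × ℤ) : ∀ (cs : List Bool) (a : ℤ × ℤ) (r : List (ℤ × ℤ)), r.length = cs.length →
    HChain (a :: r) → nbw w (a :: r) → ∀ v, (a :: r).getLast? = some v → Adj v w →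
    (a :: r).Nodup → (dec w (a :: r) cs).Nodup
  | [], a, r, h, _, _, v, _, _, _ => by
    obtain rfl : r = [] := List.length_eq_zero_iff.1 h
    simp [dec]
  | c :: cs, a, [], h, _, _, v, _, _, _ => by simp at h
  | c :: cs, a, b :: r, h, hch, hnb, v, hv, hw, hnd => by
    rw [List.getLast?_cons_cons] at hv
    have h' : r.length = cs.length := by simpa using h
    obtain ⟨hab, hch'⟩ := List.isChain_cons_cons.1 hch
    obtain ⟨hn1, hn2⟩ := hnb
    obtain ⟨hnd1, hnd2⟩ := List.nodup_cons.1 hnd
    have hb : b ∉ r := (List.nodup_cons.1 hnd2).1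
    have ih := dec_nodup w cs b r h' hch' hn2 v hv hw hnd2
    have hf := dec_fst w cs b r h'
    have hs := dec_snd w cs b r h' hb
    have hbe : Adj b (r.headD w) := adj_head hch' hv hw
    have hba : Adj b a := hab.symm
    have hne : a ≠ b := fun h => hnd1 (by rw [h]; simp)
    have k1 : (a, b) ∉ dec w (b :: r) cs := fun hm => hnd1 (hf _ hm)
    have k2 : (b, a) ∉ dec w (b :: r) cs := fun hm => hn1 (hs _ hm rfl)
    rw [dec]
    cases c
    · rw [if_neg (by simp)]
      refine List.nodup_cons.2 ⟨?_, List.nodup_cons.2 ⟨k2, ih⟩⟩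
      rw [List.mem_cons]
      rintro (hm | hm)
      · exact hne (congrArg Prod.fst hm)
      · exact k1 hm
    · rw [if_pos rfl]
      obtain ⟨t1, t2, t3⟩ := third_adj hbe hba hn1
      have k3 : (b, third b (r.headD w) a) ∉ dec w (b :: r) cs := fun hm => t2 (hs _ hm rfl)
      refine List.nodup_cons.2 ⟨?_, List.nodup_cons.2 ⟨?_, List.nodup_cons.2 ⟨k3, ih⟩⟩⟩
      · rw [List.mem_cons, List.mem_cons]
        rintro (hm | hm | hm)
        · exact hne (congrArg Prod.fst hm)
        · exact hne (congrArg Prod.fst hm)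
        · exact k1 hm
      · rw [List.mem_cons]
        rintro (hm | hm)
        · exact t3 (congrArg Prod.snd hm).symm
        · exact k2 hm

lemma adj_ne {a b : ℤ × ℤ} (h : Adj a b) : a ≠ b := NZ.ne h.2.2.nz

lemma dec_inj (w : ℤ × ℤ) : ∀ (cs cs' : List Bool) (a a' : ℤ × ℤ) (r r' : List (ℤ × ℤ)),
    r.length = cs.length → r'.length = cs'.length → HChain (a :: r) → HChain (a' :: r') →
    dec w (a :: r) cs = dec w (a' :: r') cs' → a = a' ∧ r = r' ∧ cs = cs'
  | [], cs', a, a', r, r', h, h', hc, hc', heq => by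
    obtain rfl : r = [] := List.length_eq_zero_iff.1 h
    have h1 := congrArg List.length heq
    rw [dec_length w _ _ _ h, dec_length w _ _ _ h'] at h1
    cases cs' with
    | nil =>
      obtain rfl : r' = [] := List.length_eq_zero_iff.1 h'
      simp only [dec, List.cons.injEq, Prod.mk.injEq, and_true] at heq
      exact ⟨heq, rfl, rfl⟩
    | cons c cs' =>
      rw [wt_cons] at h1
      have : wt [] = 0 := rfl
      rw [this] at h1
      split_ifs at h1 <;> omega
  | c :: cs, [], a, a', r, r', h, h', hc, hc', heq => by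
    have h1 := congrArg List.length heq
    rw [dec_length w _ _ _ h, dec_length w _ _ _ h', wt_cons] at h1
    have : wt [] = 0 := rfl
    rw [this] at h1
    split_ifs at h1 <;> omega
  | c :: cs, c' :: cs', a, a', [], r', h, h', hc, hc', heq => by simp at h
  | c :: cs, c' :: cs', a, a', b :: r, [], h, h', hc, hc', heq => by simp at h'
  | c :: cs, c' :: cs', a, a', b :: r, b' :: r', h, h', hc, hc', heq => by
    have g : r.length = cs.length := by simpa using h
    have g' : r'.length = cs'.length := by simpa using h'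
    obtain ⟨hab, hch⟩ := List.isChain_cons_cons.1 hc
    obtain ⟨hab', hch'⟩ := List.isChain_cons_cons.1 hc'
    rw [dec, dec] at heq
    simp only [List.cons.injEq, Prod.mk.injEq] at heq
    obtain ⟨⟨rfl, rfl⟩, -, heq⟩ := heq
    -- a lemma: the second element of a decoded list lies in another triangle
    have aux : ∀ (cs cs' : List Bool) (r r' : List (ℤ × ℤ)) (z : ℤ × ℤ), r.length = cs.length →
        r'.length = cs'.length → HChain (b :: r) → dec w (b :: r) cs = (b, z) :: dec w (b :: r') cs' → False := by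
      intro cs cs' r r' z g g' hch heq
      obtain ⟨Y, hY⟩ := dec_cons w cs' b r' g'
      rw [hY] at heq
      cases cs with
      | nil =>
        obtain rfl : r = [] := List.length_eq_zero_iff.1 g
        simp [dec] at heq
      | cons c cs =>
        cases r with
        | nil => simp at g
        | cons e r =>
          rw [dec] at heq
          simp only [List.cons.injEq, Prod.mk.injEq] at heq
          exact adj_ne (List.isChain_cons_cons.1 hch).1 heq.2.1.1.symm
    cases c <;> cases c'
    · simp only [Bool.false_eq_true, if_false] at heq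
      obtain ⟨-, h2, h3⟩ := dec_inj w cs cs' b b r r' g g' hch hch' heq
      exact ⟨rfl, by rw [h2], by rw [h3]⟩
    · simp only [Bool.false_eq_true, if_false, if_true] at heq
      exact (aux cs cs' r r' _ g g' hch heq).elim
    · simp only [Bool.false_eq_true, if_false, if_true] at heq
      exact (aux cs' cs r' r _ g' g hch' heq.symm).elim
    · simp only [if_true, List.cons.injEq] at heq
      obtain ⟨-, h2, h3⟩ := dec_inj w cs cs' b b r r' g g' hch hch' heq.2
      exact ⟨rfl, by rw [h2], by rw [h3]⟩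

/-- Every vertex left by the walk carries two darts visited before the present one. -/
lemma dec_two (w : ℤ × ℤ) : ∀ (cs : List Bool) (a : ℤ × ℤ) (r : List (ℤ × ℤ)), r.length = cs.length →
    nbw w (a :: r) → ∀ u ∈ r, ∀ Y, dec w (a :: r) cs = (a, r.headD w) :: Y →
    ∃ x y, x ≠ y ∧ (u, x) ∈ Y ∧ (u, y) ∈ Y
  | [], a, r, h, _, u, hu, _, _ => by
    obtain rfl : r = [] := List.length_eq_zero_iff.1 h
    simp at hu
  | c :: cs, a, [], h, _, u, hu, _, _ => by simp at h
  | c :: cs, a, b :: r, h, hnb, u, hu, Y, hY => by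
    have h' : r.length = cs.length := by simpa using h
    obtain ⟨hn1, hn2⟩ := hnb
    obtain ⟨Z, hZ⟩ := dec_cons w cs b r h'
    rw [dec] at hY
    simp only [List.cons.injEq] at hY
    have hsub : ∀ d ∈ dec w (b :: r) cs, d ∈ Y := by
      intro d hd
      rw [← hY.2]
      cases c
      · simp [hd]
      · simp [hd]
    rw [List.mem_cons] at hu
    rcases hu with rfl | hu
    · refine ⟨a, r.headD w, hn1, ?_, hsub _ (by rw [hZ]; simp)⟩
      rw [← hY.2]; simp
    · obtain ⟨x, y, h1, h2, h3⟩ := dec_two w cs b r h' hn2 u hu Z hZ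
      exact ⟨x, y, h1, hsub _ (by rw [hZ]; exact List.mem_cons_of_mem _ h2),
        hsub _ (by rw [hZ]; exact List.mem_cons_of_mem _ h3)⟩

end Pool.Agent.Hhelper64.T12
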