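import Pool.Agent.Hhelper64.T12.Ana

/-!
Final statements for the lattice `(3,12^2)`.
-/

namespace Pool.Agent.Hhelper64.T12

open Pool.Agent.Hhelper14.SAW Pool.Agent.Hhelper64.ThreeTwelve Filter Topology

lemma bn_mul_le (n m : ℕ) : bn (n * m) ≤ bn n ^ m := by
  induction m with
  | zero => simp [bn_zero]
  | succ m ih =>
    rw [Nat.mul_succ, pow_succ]
    exact (bn_submul _ _).trans (Nat.mul_le_mul_right _ ih)

lemma pow_le_bn (n : ℕ) (hn : 1 ≤ n) : (1 / xx) ^ n ≤ (bn n : ℝ) := by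
  obtain ⟨c, hc, hlow⟩ := bn_low
  have hx := xx_pos
  by_contra hcon
  push Not at hcon
  set q : ℝ := bn n * xx ^ n with hq
  have hxn : 0 < xx ^ n := by positivity
  have h1 : (1 / xx) ^ n * xx ^ n = 1 := by
    rw [← mul_pow, one_div_mul_cancel hx.ne', one_pow]
  have hq1 : q < 1 := by
    rw [hq, ← h1]
    exact mul_lt_mul_of_pos_right hcon hxn
  have hq0 : 0 ≤ q := by positivity
  have hlim := tendsto_pow_atTop_nhds_zero_of_lt_one hq0 hq1
  obtain ⟨m, hm1, hm2⟩ := ((hlim.eventually (gt_mem_nhds hc)).and (eventually_ge_atTop 1)).exists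
  have hnm : 1 ≤ n * m := Nat.mul_pos hn hm2
  have h2 := hlow (n * m) hnm
  have h3 : (bn (n * m) : ℝ) ≤ (bn n : ℝ) ^ m := by exact_mod_cast bn_mul_le n m
  have h4 : (1 : ℝ) ≤ ((n * m : ℕ) : ℝ) ^ (1 / 10000 : ℝ) :=
    Real.one_le_rpow (by exact_mod_cast hnm) (by norm_num)
  have h5 : c * (1 / xx) ^ (n * m) ≤ (bn n : ℝ) ^ m := by
    refine le_trans ?_ (h2.trans h3)
    have h6 : 0 < (1 / xx) ^ (n * m) := by positivity
    have : c * 1 ≤ c * ((n * m : ℕ) : ℝ) ^ (1 / 10000 : ℝ) := mul_le_mul_of_nonneg_left h4 hc.le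
    rw [mul_one] at this
    exact mul_le_mul_of_nonneg_right this h6.le
  have h6 : q ^ m = (bn n : ℝ) ^ m * xx ^ (n * m) := by
    rw [hq, mul_pow, ← pow_mul]
  have h7 : (1 / xx) ^ (n * m) * xx ^ (n * m) = 1 := by
    rw [← mul_pow, one_div_mul_cancel hx.ne', one_pow]
  have h8 : c ≤ q ^ m := by
    rw [h6]
    calc c = c * (1 / xx) ^ (n * m) * xx ^ (n * m) := by rw [mul_assoc, h7, mul_one]
      _ ≤ (bn n : ℝ) ^ m * xx ^ (n * m) := mul_le_mul_of_nonneg_right h5 (by positivity)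
  linarith

lemma bn_pos (n : ℕ) : (0 : ℝ) < bn n := by
  rcases Nat.eq_zero_or_pos n with rfl | hn
  · rw [bn_zero]; norm_num
  · have hx := xx_pos
    exact lt_of_lt_of_le (by positivity) (pow_le_bn n hn)

theorem muL_eq' {x : ℂ} (hx : x ∈ V) : muL x = 1 / xx := by
  obtain ⟨C, hC⟩ := bn_up
  have hxx := xx_pos
  have hmu : 0 < 1 / xx := by positivity
  have hbdd : BddBelow (Set.range (fun n : {n : ℕ // 1 ≤ n} => (a x n : ℝ) ^ (1 / (n : ℝ)))) := by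
    refine ⟨0, ?_⟩
    rintro _ ⟨n, rfl⟩
    exact Real.rpow_nonneg (Nat.cast_nonneg _) _
  have hne : Nonempty {n : ℕ // 1 ≤ n} := ⟨⟨1, le_rfl⟩⟩
  apply le_antisymm
  · have hlim : Tendsto (fun n : ℕ => (1 / xx) * Real.exp (C * (Real.sqrt n)⁻¹)) atTop
        (𝓝 ((1 / xx) * Real.exp (C * 0))) := by
      refine Tendsto.const_mul _ ((Real.continuous_exp.tendsto _).comp (Tendsto.const_mul _ ?_))
      exact tendsto_inv_atTop_zero.comp (Real.tendsto_sqrt_atTop.comp tendsto_natCast_atTop_atTop)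
    rw [mul_zero, Real.exp_zero, mul_one] at hlim
    refine ge_of_tendsto hlim ?_
    filter_upwards [eventually_ge_atTop 1] with n hn
    have h1 : muL x ≤ (a x n : ℝ) ^ (1 / (n : ℝ)) := ciInf_le hbdd ⟨n, hn⟩
    refine h1.trans ?_
    rw [a_eq_bn hx]
    have hn0 : (0 : ℝ) < n := by exact_mod_cast hn
    have h2 : (bn n : ℝ) ^ (1 / (n : ℝ)) ≤ ((1 / xx) ^ n * Real.exp (C * Real.sqrt n)) ^ (1 / (n : ℝ)) :=
      Real.rpow_le_rpow (Nat.cast_nonneg _) (hC n) (by positivity)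
    refine h2.trans (le_of_eq ?_)
    rw [Real.mul_rpow (by positivity) (Real.exp_pos _).le, ← Real.rpow_natCast, ← Real.rpow_mul hmu.le,
      mul_one_div_cancel hn0.ne', Real.rpow_one, ← Real.exp_mul]
    congr 2
    have h3 : Real.sqrt n * Real.sqrt n = n := Real.mul_self_sqrt hn0.le
    have h4 : Real.sqrt n ≠ 0 := (Real.sqrt_pos.2 hn0).ne'
    field_simp
    rw [sq, h3]
  · refine le_ciInf ?_
    rintro ⟨n, hn⟩
    have hn0 : (0 : ℝ) < n := by exact_mod_cast hn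
    rw [a_eq_bn hx]
    have h1 := pow_le_bn n hn
    have h2 := Real.rpow_le_rpow (by positivity) h1 (show 0 ≤ 1 / (n : ℝ) by positivity)
    rwa [← Real.rpow_natCast, ← Real.rpow_mul hmu.le, mul_one_div_cancel hn0.ne', Real.rpow_one] at h2

theorem final_growth : ∃ c : ℝ, 0 < c ∧ ∀ x ∈ V, ∀ n : ℕ, 1 ≤ n →
    c * (n : ℝ) ^ (1 / 10000 : ℝ) * muL x ^ n ≤ a x n := by
  obtain ⟨c, hc, hlow⟩ := bn_low
  refine ⟨c, hc, fun x hx n hn => ?_⟩
  rw [muL_eq' hx, a_eq_bn hx]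
  exact hlow n hn

theorem final_disjoint : ∃ C : ℝ, 0 < C ∧ ∀ x ∈ V, ∀ n : ℕ, 2 ≤ n → ∃ m : ℕ, n ≤ m ∧ m ≤ n ^ 2 ∧
    P x m ≤ C * (m : ℝ) ^ (-(1 / 10000) : ℝ) := by
  obtain ⟨c, hc, hlow⟩ := bn_low
  obtain ⟨C, hC⟩ := bn_up
  have hxx := xx_pos
  obtain ⟨K, hK, hr⟩ := ratio_bound (fun n => (bn n : ℝ)) (1 / xx) (by positivity) (1 / 10000) (by norm_num)
    c hc hlow C hC
  refine ⟨K, hK, fun x hx n hn => ?_⟩
  obtain ⟨m, h1, h2, -, h4⟩ := hr n hn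
  refine ⟨m, h1, h2, le_trans ?_ h4⟩
  unfold P
  rw [a_eq_bn hx]
  have h5 : ((Pairs x m).ncard : ℝ) ≤ bn (2 * m) := by exact_mod_cast pairs_le_bn hx m
  have h6 := bn_pos m
  gcongr

end Pool.Agent.Hhelper64.T12
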