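import Pool.Agent.Hhelper14.SAW.Defs

/-!
Self-avoiding paths on two regular planar lattices, the honeycomb lattice and the lattice `(3,12^2)` (truncated
hexagonal tiling), both with edges of length `1` and with `0` as a vertex.
-/

namespace Pool.Agent.Hhelper64.Two

open Pool.Agent.Hhelper14

/-- The honeycomb lattice with edges of length `1`: the points `a + b ω`, `ω = exp(iπ/3)`, `a`, `b` integers with
`a - b` not congruent to `1` modulo `3`. -/
def honeycomb : Set ℂ := Honeycomb.V

/-- The lattice `(3,12^2)` with edges of length `1`: each vertex `v` of the honeycomb lattice, enlarged by the factor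
`1 + 2/√3`, is replaced by a triangle with side `1`, with one vertex on each edge of the enlarged honeycomb lattice
at `v`; the whole is translated by `1/√3`, so that `0` is a vertex. -/
def truncated : Set ℂ :=
  {z | ∃ v ∈ honeycomb, ∃ w ∈ honeycomb, dist v w = 1 ∧
    z = (1 + 2 / Real.sqrt 3) * v + (w - v + 1) / Real.sqrt 3}

/-- Self-avoiding paths `(w 0, ..., w n)` of length `n` in `L` from the vertex `0`; two vertices are adjacent when
they are at Euclidean distance `1`. -/
def Omega (L : Set ℂ) (n : ℕ) : Set (Fin (n + 1) → ℂ) :=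
  {w | w 0 = 0 ∧ (∀ i, w i ∈ L) ∧ (∀ i : Fin n, dist (w i.castSucc) (w i.succ) = 1) ∧ Function.Injective w}

/-- The number `a_n` of self-avoiding paths of length `n`. -/
noncomputable def a (L : Set ℂ) (n : ℕ) : ℕ := (Omega L n).ncard

/-- The connective constant `μ_L = inf_{n ≥ 1} a_n^{1/n}`. -/
noncomputable def muL (L : Set ℂ) : ℝ := ⨅ n : {n : ℕ // 1 ≤ n}, (a L n : ℝ) ^ (1 / (n : ℝ))

/-- The pairs of paths of length `n` with `w{1,...,n} ∩ w'{0,...,n} = ∅`. -/
def Pairs (L : Set ℂ) (n : ℕ) : Set ((Fin (n + 1) → ℂ) × (Fin (n + 1) → ℂ)) :=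
  {q | q.1 ∈ Omega L n ∧ q.2 ∈ Omega L n ∧ ∀ i j : Fin (n + 1), i ≠ 0 → q.1 i ≠ q.2 j}

/-- The probability that `w{1,...,n}` and `w'{0,...,n}` are disjoint for independent uniform `w, w'`. -/
noncomputable def P (L : Set ℂ) (n : ℕ) : ℝ := ((Pairs L n).ncard : ℝ) / (a L n : ℝ) ^ 2

end Pool.Agent.Hhelper64.Two
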